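import Pool.Agent.Lib.KP.SpecG

set_option autoImplicit false

open Set Filter Topology Metric

namespace KP

theorem tAsc : S_Asc := by
  classical
  intro N m U f hf
  rcases U.eq_empty_or_nonempty with hU | hU
  · refine ⟨id, strictMono_id, fun _ => 0, fun Q hQ _ => ?_⟩
    have : Q = ∅ := by
      rw [hU] at hQ
      exact subset_empty_iff.1 hQ
    rw [this]
    exact tendstoUniformlyOn_empty
  haveI : Nonempty U := hU.to_subtype
  set s : ℕ → U := TopologicalSpace.denseSeq U with hs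
  have hsd : DenseRange s := TopologicalSpace.denseRange_denseSeq U
  have hb : ∀ n, ∃ R : ℝ, ∀ j, ‖f j (s n)‖ ≤ R := by
    intro n
    obtain ⟨r, hr, C, k, h⟩ := hf (s n) (s n).2
    refine ⟨C + ∑ j ∈ Finset.range k, ‖f j (s n)‖ + |C|, fun j => ?_⟩
    have h0 : 0 ≤ ∑ j ∈ Finset.range k, ‖f j (s n)‖ := Finset.sum_nonneg fun _ _ => norm_nonneg _
    rcases le_or_gt k j with hj | hj
    · have := (h j hj (s n) ⟨mem_ball_self hr, (s n).2⟩).1
      have := abs_nonneg C
      linarith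
    · have h1 : ‖f j (s n)‖ ≤ ∑ j ∈ Finset.range k, ‖f j (s n)‖ :=
        Finset.single_le_sum (f := fun j => ‖f j (s n)‖) (fun _ _ => norm_nonneg _) (Finset.mem_range.2 hj)
      have := neg_abs_le C
      linarith
  choose R hR using hb
  have hK : IsCompact (Set.pi univ fun n => closedBall (0 : Cn m) (R n)) :=
    isCompact_univ_pi fun n => isCompact_closedBall _ _
  obtain ⟨a, _, φ, hφ, ha⟩ := hK.tendsto_subseq (x := fun j n => f j (s n)) (by
    intro j n _
    rw [mem_closedBall_zero_iff]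
    exact hR n j)
  have hconv : ∀ n, Tendsto (fun j => f (φ j) (s n)) atTop (𝓝 (a n)) := fun n =>
    (tendsto_pi_nhds.1 ha) n
  have hloc : ∀ ε : ℝ, 0 < ε → ∀ x ∈ U, ∃ r > 0, ∃ J : ℕ, ∀ i ≥ J, ∀ j ≥ J, ∀ y ∈ ball x r ∩ U,
      ‖f (φ i) y - f (φ j) y‖ < ε := by
    intro ε hε x hx
    obtain ⟨r, hr, C, k, h⟩ := hf x hx
    set C' : ℝ := max C 1 with hC'
    have hC0 : 0 < C' := lt_of_lt_of_le one_pos (le_max_right _ _)
    set r' : ℝ := min r (ε / (8 * C')) with hr'
    have hr'0 : 0 < r' := lt_min hr (by positivity)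
    have hr'C : C' * r' ≤ ε / 8 := by
      have := min_le_right r (ε / (8 * C'))
      rw [← hr', le_div_iff₀ (by positivity)] at this
      linarith
    obtain ⟨n, hn⟩ := hsd.exists_mem_open (isOpen_ball.preimage continuous_subtype_val)
      (⟨⟨x, hx⟩, mem_ball_self hr'0⟩ : (Subtype.val ⁻¹' ball x r' : Set U).Nonempty)
    have hn' : (s n : Cn N) ∈ ball x r' := hn
    obtain ⟨J0, hJ0⟩ := (Metric.cauchySeq_iff.1 (hconv n).cauchySeq) (ε / 2) (by positivity)
    refine ⟨r', hr'0, max J0 k, fun i hi j hj y hy => ?_⟩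
    have hik : k ≤ φ i := (le_trans (le_max_right _ _) hi).trans (hφ.id_le i)
    have hjk : k ≤ φ j := (le_trans (le_max_right _ _) hj).trans (hφ.id_le j)
    have hyr : y ∈ ball x r ∩ U := ⟨ball_subset_ball (min_le_left _ _) hy.1, hy.2⟩
    have hsr : (s n : Cn N) ∈ ball x r ∩ U := ⟨ball_subset_ball (min_le_left _ _) hn', (s n).2⟩
    have e0 : ‖y - s n‖ ≤ 2 * r' := by
      rw [← dist_eq_norm]
      have h1 := dist_triangle_right y (s n : Cn N) x
      have h2 : dist y x < r' := hy.1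
      have h3 : dist (s n : Cn N) x < r' := hn'
      linarith
    have e1 : ‖f (φ i) y - f (φ i) (s n)‖ ≤ ε / 4 := by
      have h1 := (h (φ i) hik y hyr).2 (s n) hsr
      have h2 : C * ‖y - s n‖ ≤ C' * (2 * r') :=
        mul_le_mul (le_max_left _ _) e0 (norm_nonneg _) hC0.le
      linarith
    have e2 : ‖f (φ j) y - f (φ j) (s n)‖ ≤ ε / 4 := by
      have h1 := (h (φ j) hjk y hyr).2 (s n) hsr
      have h2 : C * ‖y - s n‖ ≤ C' * (2 * r') :=
        mul_le_mul (le_max_left _ _) e0 (norm_nonneg _) hC0.le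
      linarith
    have e3 : ‖f (φ i) (s n) - f (φ j) (s n)‖ < ε / 2 := by
      rw [← dist_eq_norm]
      exact hJ0 i (le_trans (le_max_left _ _) hi) j (le_trans (le_max_left _ _) hj)
    have e4 : f (φ i) y - f (φ j) y = (f (φ i) y - f (φ i) (s n)) +
        (f (φ i) (s n) - f (φ j) (s n)) - (f (φ j) y - f (φ j) (s n)) := by abel
    rw [e4]
    have e5 := norm_sub_le ((f (φ i) y - f (φ i) (s n)) + (f (φ i) (s n) - f (φ j) (s n)))
      (f (φ j) y - f (φ j) (s n))
    have e6 := norm_add_le (f (φ i) y - f (φ i) (s n)) (f (φ i) (s n) - f (φ j) (s n))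
    linarith
  have hlim : ∀ y ∈ U, ∃ l, Tendsto (fun j => f (φ j) y) atTop (𝓝 l) := by
    intro y hy
    refine cauchySeq_tendsto_of_complete ?_
    rw [Metric.cauchySeq_iff]
    intro ε hε
    obtain ⟨r, hr, J, h⟩ := hloc ε hε y hy
    refine ⟨J, fun i hi j hj => ?_⟩
    rw [dist_eq_norm]
    exact h i hi j hj y ⟨mem_ball_self hr, hy⟩
  choose! F hF using hlim
  refine ⟨φ, hφ, F, fun Q hQU hQ => ?_⟩
  rw [← tendstoLocallyUniformlyOn_iff_tendstoUniformlyOn_of_compact hQ,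
    Metric.tendstoLocallyUniformlyOn_iff]
  intro ε hε x hx
  obtain ⟨r, hr, J, h⟩ := hloc (ε / 2) (by positivity) x (hQU hx)
  refine ⟨ball x r ∩ Q, inter_mem (mem_nhdsWithin_of_mem_nhds (ball_mem_nhds x hr)) self_mem_nhdsWithin, ?_⟩
  filter_upwards [eventually_ge_atTop J] with j hj y hy
  have h1 : Tendsto (fun i => ‖f (φ i) y - f (φ j) y‖) atTop (𝓝 ‖F y - f (φ j) y‖) :=
    ((hF y (hQU hy.2)).sub_const _).norm
  have h2 : ‖F y - f (φ j) y‖ ≤ ε / 2 := by
    refine le_of_tendsto h1 ?_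
    filter_upwards [eventually_ge_atTop J] with i hi
    exact (h i hi j hj y ⟨hy.1, hQU hy.2⟩).le
  rw [dist_eq_norm]
  linarith

end KP
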