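import Pool.Agent.Lib.KP.SpecG

set_option autoImplicit false

open Set Filter Topology Metric

namespace KP

theorem tBnd : S_Bnd := by
  classical
  intro N n I U G K hU hG c R D x0 A B hS hR ψ g k k0 hψ hgG hk0 hkU hk hstart hQ
  have hUV : ∀ y ∈ U, y ∈ zeroSet I := fun y hy => (hU.smooth y hy).1
  set Gj : ℕ → Cn N → Cn n := fun j y => B (ψ j) (c.pi (g j y)) with hGj
  -- the local lemma
  have hL : ∀ x ∈ U, ∃ T ∈ 𝓝[U] x, x ∈ T ∧ ∀ (y : ℕ → Cn N) (M : ℝ), (∀ᶠ j in atTop, y j ∈ T) →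
      (∀ᶠ j in atTop, ‖Gj j (y j)‖ ≤ M) → ∃ M' : ℝ, ∀ᶠ j in atTop, ∀ z ∈ T, ‖Gj j z‖ ≤ M' := by
    intro x hx
    obtain ⟨hxV, e, hxO⟩ := hU.smooth x hx
    obtain ⟨hw, hpsi⟩ := e.right hxV hxO
    set w0 : Cn n := e.pi x with hw0
    have hpre : w0 ∈ e.pre U := ⟨hw, by rw [hpsi]; exact hx⟩
    obtain ⟨r2, hr2, hball⟩ := nhds_basis_closedBall.mem_iff.1 ((hU.isOpen_pre e).mem_nhds hpre)
    set r : ℝ := r2 / 2 with hr
    have hr0 : 0 < r := by positivity
    have h2r : 2 * r = r2 := by rw [hr]; ring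
    have hcpt : IsCompact (e.psi '' closedBall w0 r2) :=
      (isCompact_closedBall _ _).image_of_continuousOn
        (e.hpsi.continuousOn.mono fun w hw => (hball hw).1)
    have hsub : e.psi '' closedBall w0 r2 ⊆ U := by
      rintro _ ⟨w, hw, rfl⟩
      exact (hball hw).2
    have hopen : IsOpen (e.O ∩ e.pi ⁻¹' ball w0 (r / 4)) :=
      e.hpi.continuousOn.isOpen_inter_preimage e.hO isOpen_ball
    refine ⟨U ∩ (e.O ∩ e.pi ⁻¹' ball w0 (r / 4)), inter_mem self_mem_nhdsWithin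
      (mem_nhdsWithin_of_mem_nhds (hopen.mem_nhds ⟨hxO, mem_ball_self (by positivity)⟩)),
      ⟨hx, hxO, mem_ball_self (by positivity)⟩, ?_⟩
    intro y M hyT hyM
    obtain ⟨M', ρ', J, hρ', hnorm⟩ := hS.normal M
    refine ⟨M', ?_⟩
    filter_upwards [hyT, hyM, hψ.eventually_ge_atTop J, hQ _ hsub hcpt ρ' hρ'] with j h1 h2 h3 h4
    intro z hz
    obtain ⟨hyU, hyO, hyb⟩ := h1
    obtain ⟨hzU, hzO, hzb⟩ := hz
    have hyb' : dist (e.pi (y j)) w0 < r / 4 := hyb
    have hzb' : dist (e.pi z) w0 < r / 4 := hzb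
    have hypsi : e.psi (e.pi (y j)) = y j := (e.right (hUV _ hyU) hyO).2
    have hzpsi : e.psi (e.pi z) = z := (e.right (hUV _ hzU) hzO).2
    -- holomorphy
    have hhol : DifferentiableOn ℂ (fun w => c.pi (g j (e.psi w))) (ball w0 r2) := by
      rw [← holOn_iff isOpen_ball]
      have e1 : HolOn e.psi (ball w0 r2) := by
        rw [holOn_iff isOpen_ball]
        exact e.hpsi.mono fun w hw => (hball (ball_subset_closedBall hw)).1
      have e2 : HolOn (fun w => g j (e.psi w)) (ball w0 r2) :=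
        HolOn.comp (hG.hol _ (hgG j)) e1 fun w hw => (hball (ball_subset_closedBall hw)).2
      have e3 : HolOn c.pi c.O := (holOn_iff c.hO).2 c.hpi
      refine HolOn.comp e3 e2 ?_
      intro w hw
      obtain ⟨q1, q2, q3⟩ := h4 (e.psi w) (mem_image_of_mem _ (ball_subset_closedBall hw))
      have q4 := (c.psi_mem (hR q1).1).2
      rw [q3] at q4
      exact q4
    set v : Cn n := (2 : ℂ) • (e.pi z - e.pi (y j)) with hv
    have hvn : ‖v‖ < r := by
      rw [hv, norm_smul]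
      have : ‖(2 : ℂ)‖ = 2 := by norm_num
      rw [this, ← dist_eq_norm]
      have := dist_triangle_right (e.pi z) (e.pi (y j)) w0
      linarith
    have hin : ∀ t ∈ ball (0 : ℂ) 1, e.pi (y j) + t • v ∈ ball w0 r2 := by
      intro t ht
      rw [mem_ball, dist_eq_norm]
      rw [mem_ball_zero_iff] at ht
      have e1 : e.pi (y j) + t • v - w0 = (e.pi (y j) - w0) + t • v := by abel
      rw [e1]
      have e2 := norm_add_le (e.pi (y j) - w0) (t • v)
      rw [norm_smul, ← dist_eq_norm] at e2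
      nlinarith [norm_nonneg t, norm_nonneg v]
    have key := hnorm (ψ j) h3 (fun t => Gj j (e.psi (e.pi (y j) + t • v))) ?_ ?_ ?_ (1 / 2) ?_
    · have e1 : e.pi (y j) + (1 / 2 : ℂ) • v = e.pi z := by
        rw [hv, smul_smul]
        norm_num
      simp only [e1, hzpsi] at key
      exact key
    · have e1 : DifferentiableOn ℂ (fun t : ℂ => c.pi (g j (e.psi (e.pi (y j) + t • v)))) (ball 0 1) :=
        hhol.comp (Differentiable.differentiableOn (by fun_prop)) hin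
      exact (hS.difB (ψ j)).comp_differentiableOn e1
    · intro t ht
      obtain ⟨q1, q2, q3⟩ := h4 (e.psi (e.pi (y j) + t • v))
        (mem_image_of_mem _ (ball_subset_closedBall (hin t ht)))
      simp only [hGj, hS.AB]
      exact ⟨q1, q2⟩
    · simp only [zero_smul, add_zero, hypsi]
      exact h2
    · norm_num
  -- boundedness at every point
  have hk0P : ∃ M : ℝ, ∀ᶠ j in atTop, ‖Gj j k0‖ ≤ M := by
    obtain ⟨T, hT, hxT, h⟩ := hL k0 hk0
    have h1 : Tendsto k atTop (𝓝[U] k0) := tendsto_nhdsWithin_iff.2 ⟨hk, Eventually.of_forall hkU⟩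
    obtain ⟨M', hM'⟩ := h k ‖x0‖ (h1.eventually_mem hT) (Eventually.of_forall fun j => by
      simp only [hGj, hstart j, hS.BA]
      exact le_rfl)
    exact ⟨M', hM'.mono fun j hj => hj k0 hxT⟩
  have hPall : ∀ x ∈ U, ∃ M : ℝ, ∀ᶠ j in atTop, ‖Gj j x‖ ≤ M := by
    intro x hx
    have := hU.conn.isPreconnected.induction₂
      (fun x y => ((∃ M : ℝ, ∀ᶠ j in atTop, ‖Gj j x‖ ≤ M) ↔ (∃ M : ℝ, ∀ᶠ j in atTop, ‖Gj j y‖ ≤ M))) ?_
      (fun x y z _ _ _ h h' => h.trans h') (fun x y _ _ h => h.symm) hk0 hx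
    · exact this.1 hk0P
    · intro y hy
      obtain ⟨T, hT, hxT, h⟩ := hL y hy
      filter_upwards [hT] with z hz
      constructor
      · rintro ⟨M, hM⟩
        obtain ⟨M', hM'⟩ := h (fun _ => y) M (Eventually.of_forall fun _ => hxT) hM
        exact ⟨M', hM'.mono fun j hj => hj z hz⟩
      · rintro ⟨M, hM⟩
        obtain ⟨M', hM'⟩ := h (fun _ => z) M (Eventually.of_forall fun _ => hz) hM
        exact ⟨M', hM'.mono fun j hj => hj y hxT⟩
  intro Q hQU hQc
  refine hQc.induction_on (p := fun T => ∃ M : ℝ, ∀ᶠ j in atTop, ∀ x ∈ T, ‖B (ψ j) (c.pi (g j x))‖ ≤ M)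
    ?_ ?_ ?_ ?_
  · exact ⟨0, Eventually.of_forall fun j x hx => absurd hx (notMem_empty x)⟩
  · rintro s t hst ⟨M, hM⟩
    exact ⟨M, hM.mono fun j hj x hx => hj x (hst hx)⟩
  · rintro s t ⟨M, hM⟩ ⟨M', hM'⟩
    refine ⟨max M M', ?_⟩
    filter_upwards [hM, hM'] with j h1 h2 x hx
    rcases hx with hx | hx
    · exact (h1 x hx).trans (le_max_left _ _)
    · exact (h2 x hx).trans (le_max_right _ _)
  · intro x hx
    obtain ⟨T, hT, hxT, h⟩ := hL x (hQU hx)
    obtain ⟨M, hM⟩ := hPall x (hQU hx)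
    exact ⟨T, nhdsWithin_mono x hQU hT, h (fun _ => x) M (Eventually.of_forall fun _ => hxT) hM⟩

end KP
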