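import Pool.Agent.Lib.KP.SpecG

set_option autoImplicit false

open Set Filter Topology Metric

namespace KP

theorem tCoc : S_Coc := by
  intro N n I U hU Γ _ _ hΓ hcpt
  choose f hf hfu using hΓ
  -- the action is continuous
  have hcont : ∀ γ : Γ, Continuous fun u : U => γ • u := by
    intro γ
    rw [Topology.IsInducing.subtypeVal.continuous_iff]
    have h1 : (Subtype.val ∘ fun u : U => γ • u) = fun u : U => f γ u := by
      funext u
      exact (hfu γ u).symm
    rw [h1]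
    exact continuousOn_iff_continuous_restrict.1 (hf γ).continuousOn
  haveI : ContinuousConstSMul Γ U := ⟨hcont⟩
  -- local compactness
  haveI : LocallyCompactSpace U := by
    obtain ⟨O, hO, hUO⟩ := hU.opn
    have h1 : IsLocallyClosed U := by
      rw [hUO]
      exact (isClosed_zeroSet I).isLocallyClosed.inter hO.isLocallyClosed
    exact h1.locallyCompactSpace
  have hC : ∀ u : U, ∃ C : Set U, IsCompact C ∧ C ∈ 𝓝 u := exists_compact_mem_nhds
  choose C hCc hCn using hC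
  letI := MulAction.orbitRel Γ U
  have hopen : IsOpenMap (Quotient.mk' : U → Quotient (MulAction.orbitRel Γ U)) :=
    isOpenMap_quotient_mk'_mul
  have hnh : ∀ q : Quotient (MulAction.orbitRel Γ U),
      (Quotient.mk' '' interior (C q.out) : Set (Quotient (MulAction.orbitRel Γ U))) ∈ 𝓝 q := by
    intro q
    apply (hopen _ isOpen_interior).mem_nhds
    refine ⟨q.out, mem_interior_iff_mem_nhds.2 (hCn _), ?_⟩
    exact Quotient.out_eq' q
  obtain ⟨t, -, ht⟩ := isCompact_univ.elim_nhds_subcover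
    (fun q : Quotient (MulAction.orbitRel Γ U) => Quotient.mk' '' interior (C q.out))
    (fun q _ => hnh q)
  refine ⟨range f, Subtype.val '' (⋃ q ∈ t, C q.out), ?_, ?_, ?_, ?_, ?_, ?_⟩
  · rintro _ ⟨γ, rfl⟩
    exact hf γ
  · rintro _ ⟨γ, rfl⟩ x hx
    rw [hfu γ ⟨x, hx⟩]
    exact (γ • (⟨x, hx⟩ : U)).2
  · rintro _ ⟨γ, rfl⟩
    refine ⟨f γ⁻¹, ⟨γ⁻¹, rfl⟩, ?_, ?_⟩
    · intro x hx
      have h1 := hfu γ ⟨x, hx⟩
      have h2 := hfu γ⁻¹ (γ • ⟨x, hx⟩)
      rw [inv_smul_smul, ← h1] at h2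
      exact h2
    · intro x hx
      have h1 := hfu γ⁻¹ ⟨x, hx⟩
      have h2 := hfu γ (γ⁻¹ • ⟨x, hx⟩)
      rw [smul_inv_smul, ← h1] at h2
      exact h2
  · exact (t.isCompact_biUnion fun q _ => hCc q.out).image continuous_subtype_val
  · rintro _ ⟨u, -, rfl⟩
    exact u.2
  · intro x hx
    have h1 : (Quotient.mk' (⟨x, hx⟩ : U) : Quotient (MulAction.orbitRel Γ U)) ∈
        ⋃ q ∈ t, (Quotient.mk' '' interior (C q.out) : Set (Quotient (MulAction.orbitRel Γ U))) :=
      ht (mem_univ _)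
    simp only [mem_iUnion, mem_image, exists_prop] at h1
    obtain ⟨q, hq, u', hu', h2⟩ := h1
    have h3 : u' ∈ MulAction.orbit Γ (⟨x, hx⟩ : U) := by
      have h4 := Quotient.eq'.1 h2
      exact h4
    obtain ⟨γ, hγ⟩ := h3
    refine ⟨f γ, ⟨γ, rfl⟩, ?_⟩
    have h5 : ∀ᶠ v in 𝓝 (⟨x, hx⟩ : U), γ • v ∈ C q.out := by
      have h6 : interior (C q.out) ∈ 𝓝 (γ • (⟨x, hx⟩ : U)) := by
        have h7 : γ • (⟨x, hx⟩ : U) = u' := hγ
        rw [h7]
        exact isOpen_interior.mem_nhds hu'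
      filter_upwards [(hcont γ).continuousAt.preimage_mem_nhds h6] with v hv
      exact interior_subset hv
    rw [nhds_subtype_eq_comap, eventually_comap] at h5
    filter_upwards [h5] with y hy hyU
    have h6 := hy ⟨y, hyU⟩ rfl
    refine ⟨γ • ⟨y, hyU⟩, ?_, (hfu γ ⟨y, hyU⟩).symm⟩
    simp only [mem_iUnion]
    exact ⟨q, hq, h6⟩

end KP
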