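import Pool.Agent.Lib.KP.SpecG

/-!
# KP (MP_64edc4_ag), block G, CovF: finite covering of compact sets
-/

set_option autoImplicit false

open Set Filter Topology Metric

namespace KP

theorem tCovF : S_CovF := by
  classical
  intro N U G K h Q hQU hQ
  have h1 : ∀ x, ∃ g, x ∈ Q → (g ∈ G ∧ ∀ᶠ y in 𝓝 x, y ∈ U → g y ∈ K) := by
    intro x
    by_cases hx : x ∈ Q
    · obtain ⟨g, hg, h'⟩ := h.cov x (hQU hx)
      exact ⟨g, fun _ => ⟨hg, h'⟩⟩
    · exact ⟨id, fun h => absurd h hx⟩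
  choose g hg using h1
  obtain ⟨t, ht, hcov⟩ := hQ.elim_nhds_subcover (fun x => {y | y ∈ U → g x y ∈ K})
    (fun x hx => (hg x hx).2)
  refine ⟨t.image g, ?_, ?_⟩
  · intro g' hg'
    rw [Finset.mem_image] at hg'
    obtain ⟨x, hx, rfl⟩ := hg'
    exact (hg x (ht x hx)).1
  · intro x hx
    have h2 := hcov hx
    rw [mem_iUnion₂] at h2
    obtain ⟨y, hy, hxy⟩ := h2
    exact ⟨g y, Finset.mem_image_of_mem _ hy, hxy (hQU hx)⟩

end KP
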