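import Pool.Agent.Lib.KP.SpecG

set_option autoImplicit false

open Set Filter Topology Metric

namespace KP

namespace ExhAux

/-- the good sets -/
private def Good {N : ℕ} (U W : Set (Cn N)) : Prop :=
  ROpen W U ∧ IsPreconnected W ∧ IsCompact (closure W) ∧ closure W ⊆ U

private theorem Good.union {N : ℕ} {U W W' : Set (Cn N)} (h : Good U W) (h' : Good U W') {x : Cn N}
    (hx : x ∈ W) (hx' : x ∈ W') : Good U (W ∪ W') := by
  obtain ⟨⟨O, hO, e⟩, h2, h3, h4⟩ := h
  obtain ⟨⟨O', hO', e'⟩, h2', h3', h4'⟩ := h'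
  refine ⟨⟨O ∪ O', hO.union hO', by rw [e, e', inter_union_distrib_left]⟩, h2.union x hx hx' h2', ?_, ?_⟩
  · rw [closure_union]
    exact h3.union h3'
  · rw [closure_union]
    exact union_subset h4 h4'

private theorem local_good {N n : ℕ} {I : Set (MvPolynomial (Fin N) ℂ)} {U : Set (Cn N)}
    (hU : IsDom I n U) {x : Cn N} (hx : x ∈ U) : ∃ W, Good U W ∧ W ∈ 𝓝[U] x ∧ x ∈ W := by
  obtain ⟨hxV, c, hxO⟩ := hU.smooth x hx
  have hUV : ∀ y ∈ U, y ∈ zeroSet I := fun y hy => (hU.smooth y hy).1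
  obtain ⟨hw, hpsi⟩ := c.right hxV hxO
  have hpre : c.pi x ∈ c.pre U := ⟨hw, by rw [hpsi]; exact hx⟩
  obtain ⟨r, hr, hball⟩ := nhds_basis_closedBall.mem_iff.1 ((hU.isOpen_pre c).mem_nhds hpre)
  have hball' : ball (c.pi x) r ⊆ c.pre U := ball_subset_closedBall.trans hball
  have hcont : ContinuousOn c.psi (closedBall (c.pi x) r) :=
    c.hpsi.continuousOn.mono fun w hw => (hball hw).1
  have hcpt : IsCompact (c.psi '' closedBall (c.pi x) r) :=
    (isCompact_closedBall _ _).image_of_continuousOn hcont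
  have hclos : closure (c.psi '' ball (c.pi x) r) ⊆ c.psi '' closedBall (c.pi x) r :=
    closure_minimal (image_mono ball_subset_closedBall) hcpt.isClosed
  have hsub : c.psi '' closedBall (c.pi x) r ⊆ U := by
    rintro _ ⟨w, hw, rfl⟩
    exact (hball hw).2
  have hopen : IsOpen (c.O ∩ c.pi ⁻¹' ball (c.pi x) r) :=
    c.hpi.continuousOn.isOpen_inter_preimage c.hO isOpen_ball
  have heq : c.psi '' ball (c.pi x) r = U ∩ (c.O ∩ c.pi ⁻¹' ball (c.pi x) r) := by
    ext y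
    constructor
    · rintro ⟨w, hw, rfl⟩
      refine ⟨(hball' hw).2, (c.psi_mem (hball' hw).1).2, ?_⟩
      rw [mem_preimage, c.left w (hball' hw).1]
      exact hw
    · rintro ⟨h1, h2, h3⟩
      exact ⟨c.pi y, h3, (c.right (hUV y h1) h2).2⟩
  refine ⟨c.psi '' ball (c.pi x) r, ⟨⟨_, hopen, heq⟩, ?_, ?_, ?_⟩, ?_, ?_⟩
  · exact ((convex_ball (c.pi x) r).isPreconnected).image _ (hcont.mono ball_subset_closedBall)
  · exact hcpt.of_isClosed_subset isClosed_closure hclos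
  · exact hclos.trans hsub
  · rw [heq]
    exact inter_mem self_mem_nhdsWithin
      (mem_nhdsWithin_of_mem_nhds (hopen.mem_nhds ⟨hxO, mem_ball_self hr⟩))
  · exact ⟨c.pi x, mem_ball_self hr, hpsi⟩

end ExhAux

open ExhAux in
theorem tExh : S_Exh := by
  classical
  intro N n I U hU k0 hk0
  have hreach : ∀ x ∈ U, ∃ W, Good U W ∧ k0 ∈ W ∧ x ∈ W := by
    intro x hx
    refine hU.conn.isPreconnected.induction₂ (fun y z => ∃ W, Good U W ∧ y ∈ W ∧ z ∈ W) ?_ ?_ ?_ hk0 hx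
    · intro y hy
      obtain ⟨W, hW, hWn, hyW⟩ := local_good hU hy
      filter_upwards [hWn] with z hz
      exact ⟨W, hW, hyW, hz⟩
    · rintro y z w _ _ _ ⟨W, hW, h1, h2⟩ ⟨W', hW', h1', h2'⟩
      exact ⟨W ∪ W', hW.union hW' h2 h1', Or.inl h1, Or.inr h2'⟩
    · rintro y z _ _ ⟨W, hW, h1, h2⟩
      exact ⟨W, hW, h2, h1⟩
  choose! W hW hkW hxW using hreach
  have hnhds : ∀ x ∈ U, W x ∈ 𝓝[U] x := by
    intro x hx
    obtain ⟨O, hO, e⟩ := (hW x hx).1
    have h1 : x ∈ U ∩ O := by rw [← e]; exact hxW x hx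
    rw [e]
    exact inter_mem self_mem_nhdsWithin (mem_nhdsWithin_of_mem_nhds (hO.mem_nhds h1.2))
  obtain ⟨t, htU, htc, hcov⟩ := TopologicalSpace.countable_cover_nhdsWithin hnhds
  have htne : t.Nonempty := by
    obtain ⟨x, hx⟩ := mem_iUnion.1 (hcov hk0)
    obtain ⟨hx, _⟩ := mem_iUnion.1 hx
    exact ⟨x, hx⟩
  obtain ⟨f, hf⟩ := htc.exists_eq_range htne
  have hfU : ∀ i, f i ∈ U := fun i => htU (by rw [hf]; exact mem_range_self i)
  -- finite unions
  set Um : ℕ → Set (Cn N) := fun k => ⋃ i ∈ Finset.range (k + 1), W (f i) with hUm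
  have hmem : ∀ k x, x ∈ Um k ↔ ∃ i ≤ k, x ∈ W (f i) := by
    intro k x
    simp only [hUm, Finset.mem_range, mem_iUnion, exists_prop, Nat.lt_succ_iff]
  have hgood : ∀ k, Good U (Um k) := by
    intro k
    induction k with
    | zero =>
      have : Um 0 = W (f 0) := by
        ext x
        rw [hmem]
        constructor
        · rintro ⟨i, hi, h⟩
          rwa [Nat.le_zero.1 hi] at h
        · exact fun h => ⟨0, le_rfl, h⟩
      rw [this]
      exact hW _ (hfU 0)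
    | succ k ih =>
      have : Um (k + 1) = Um k ∪ W (f (k + 1)) := by
        ext x
        rw [mem_union, hmem, hmem]
        constructor
        · rintro ⟨i, hi, h⟩
          rcases Nat.lt_or_ge i (k + 1) with h1 | h1
          · exact Or.inl ⟨i, by omega, h⟩
          · have : i = k + 1 := by omega
            rw [this] at h
            exact Or.inr h
        · rintro (⟨i, hi, h⟩ | h)
          · exact ⟨i, by omega, h⟩
          · exact ⟨k + 1, le_rfl, h⟩
      rw [this]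
      exact ih.union (hW _ (hfU _)) ((hmem k k0).2 ⟨0, Nat.zero_le _, hkW _ (hfU 0)⟩) (hkW _ (hfU _))
  have hk0m : ∀ k, k0 ∈ Um k := fun k => (hmem k k0).2 ⟨0, Nat.zero_le _, hkW _ (hfU 0)⟩
  refine ⟨Um, ?_, ?_, fun k => ⟨(hgood k).1, hk0m k, ⟨⟨k0, hk0m k⟩, (hgood k).2.1⟩, (hgood k).2.2.1,
    (hgood k).2.2.2⟩⟩
  · intro k l hkl x hx
    obtain ⟨i, hi, h⟩ := (hmem k x).1 hx
    exact (hmem l x).2 ⟨i, hi.trans hkl, h⟩
  · apply Subset.antisymm
    · exact iUnion_subset fun k => subset_closure.trans (hgood k).2.2.2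
    · intro x hx
      obtain ⟨y, hy⟩ := mem_iUnion.1 (hcov hx)
      obtain ⟨hyt, hy⟩ := mem_iUnion.1 hy
      rw [hf] at hyt
      obtain ⟨i, rfl⟩ := hyt
      exact mem_iUnion.2 ⟨i, (hmem i x).2 ⟨i, le_rfl, hy⟩⟩

end KP
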