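import Pool.Agent.Lib.KP.SpecG

/-!
# KP (MP_64edc4_ag), block G, HLim: locally uniform limits of holomorphic maps
-/

set_option autoImplicit false

open Set Filter Topology Metric

namespace KP

namespace HLimAux

theorem lim0 {n N : ℕ} {O : Set (Cn n)} (hO : IsOpen O) {g : ℕ → Cn n → Cn N}
    {h : Cn n → Cn N} (hg : ∀ j, DifferentiableOn ℂ (g j) O)
    (hgh : TendstoUniformlyOn g h atTop O) : DifferentiableOn ℂ h O := by
  intro z hz
  obtain ⟨R', hR', hRO⟩ := Metric.isOpen_iff.mp hO z hz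
  set R : ℝ := R' / 2 with hR
  have hRpos : 0 < R := by positivity
  have hsub : ∀ y ∈ ball z R, ball y R ⊆ O := by
    intro y hy
    refine Subset.trans (ball_subset_ball' ?_) hRO
    rw [mem_ball] at hy
    linarith
  have hyO : ∀ y ∈ ball z R, y ∈ O := fun y hy => hsub y hy (mem_ball_self hRpos)
  have hC : UniformCauchySeqOn (fun j => fderiv ℂ (g j)) atTop (ball z R) := by
    rw [Metric.uniformCauchySeqOn_iff]
    intro ε hε
    have hc := hgh.uniformCauchySeqOn
    rw [Metric.uniformCauchySeqOn_iff] at hc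
    obtain ⟨k, hk⟩ := hc (ε * R / 2) (by positivity)
    refine ⟨k, fun a ha b hb y hy => ?_⟩
    have h1 : DifferentiableOn ℂ (fun w => g a w - g b w) (ball y R) :=
      ((hg a).mono (hsub y hy)).sub ((hg b).mono (hsub y hy))
    have h2 := Pool.Agent.Lib.Osgood.norm_fderiv_le (M := ε * R / 2) hRpos h1 (fun w hw => by
      have := (hk a ha b hb w (hsub y hy hw)).le
      rwa [dist_eq_norm] at this)
    have h3 : fderiv ℂ (fun w => g a w - g b w) y = fderiv ℂ (g a) y - fderiv ℂ (g b) y :=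
      fderiv_fun_sub ((hg a).differentiableAt (hO.mem_nhds (hyO y hy)))
        ((hg b).differentiableAt (hO.mem_nhds (hyO y hy)))
    rw [h3] at h2
    rw [dist_eq_norm]
    refine lt_of_le_of_lt h2 ?_
    have : ε * R / 2 / R = ε / 2 := by field_simp
    rw [this]
    linarith
  have hlim : ∀ y ∈ ball z R, ∃ L : Cn n →L[ℂ] Cn N,
      Tendsto (fun j => fderiv ℂ (g j) y) atTop (𝓝 L) := fun y hy =>
    cauchySeq_tendsto_of_complete (hC.cauchySeq hy)
  choose! L hL using hlim
  have hU := hC.tendstoUniformlyOn_of_tendsto hL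
  exact (hasFDerivAt_of_tendstoUniformlyOn isOpen_ball hU
    (fun j y hy => ((hg j).differentiableAt (hO.mem_nhds (hyO y hy))).hasFDerivAt)
    (fun y hy => hgh.tendsto_at (hyO y hy)) (mem_ball_self hRpos)).differentiableAt.differentiableWithinAt

theorem lim1 {n N : ℕ} {O : Set (Cn n)} (hO : IsOpen O) {g : ℕ → Cn n → Cn N}
    {h : Cn n → Cn N} (hg : ∀ᶠ j in atTop, DifferentiableOn ℂ (g j) O)
    (hgh : TendstoUniformlyOn g h atTop O) : DifferentiableOn ℂ h O := by
  obtain ⟨k, hk⟩ := eventually_atTop.1 hg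
  refine lim0 hO (g := fun j => g (j + k)) (fun j => hk (j + k) (by omega)) ?_
  intro u hu
  exact (tendsto_add_atTop_nat k).eventually (hgh u hu)

end HLimAux

open HLimAux

theorem tHLim : S_HLim := by
  intro N n m V U hUV hsm f F hf hF z hz
  obtain ⟨O0, hO0, hU⟩ := hUV
  obtain ⟨U', hzU', ⟨O1, hO1, hU'⟩, hfU'⟩ := hf z hz
  obtain ⟨hzV, c, hc⟩ := hsm z hz
  obtain ⟨hw0, hpz⟩ := c.right hzV hc
  have hzO0 : z ∈ O0 := by
    have : z ∈ V ∩ O0 := hU ▸ hz
    exact this.2
  have hzO1 : z ∈ O1 := by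
    have : z ∈ U ∩ O1 := hU' ▸ hzU'
    exact this.2
  have hP : IsOpen (c.W ∩ c.psi ⁻¹' (O0 ∩ O1)) :=
    c.hpsi.continuousOn.isOpen_inter_preimage c.hW (hO0.inter hO1)
  have hPw : c.pi z ∈ c.W ∩ c.psi ⁻¹' (O0 ∩ O1) := ⟨hw0, by
    rw [mem_preimage, hpz]; exact ⟨hzO0, hzO1⟩⟩
  obtain ⟨r, hr, hball⟩ := Metric.nhds_basis_closedBall.mem_iff.1 (hP.mem_nhds hPw)
  have hBU : ∀ w ∈ closedBall (c.pi z) r, c.psi w ∈ U' := by
    intro w hw
    have h1 := hball hw
    have h2 := c.psi_mem h1.1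
    have h3 : c.psi w ∈ U := by rw [hU]; exact ⟨h2.1, h1.2.1⟩
    rw [hU']
    exact ⟨h3, h1.2.2⟩
  have hU'U : U' ⊆ U := by rw [hU']; exact inter_subset_left
  have hpsi : ContinuousOn c.psi (closedBall (c.pi z) r) :=
    c.hpsi.continuousOn.mono (fun w hw => (hball hw).1)
  have hcomp : IsCompact (c.psi '' closedBall (c.pi z) r) :=
    (isCompact_closedBall _ _).image_of_continuousOn hpsi
  have hunif := hF (c.psi '' closedBall (c.pi z) r)
    (image_subset_iff.2 (fun w hw => hU'U (hBU w hw))) hcomp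
  have hunif2 : TendstoUniformlyOn (fun j w => f j (c.psi w)) (fun w => F (c.psi w)) atTop
      (ball (c.pi z) r) := by
    intro u hu
    filter_upwards [hunif u hu] with j hj w hw
    exact hj (c.psi w) (mem_image_of_mem _ (ball_subset_closedBall hw))
  have hdif : ∀ᶠ j in atTop, DifferentiableOn ℂ (fun w => f j (c.psi w)) (ball (c.pi z) r) := by
    filter_upwards [hfU'] with j hj
    have h1 : HolOn c.psi (ball (c.pi z) r) := (holOn_iff isOpen_ball).2
      (c.hpsi.mono (fun w hw => (hball (ball_subset_closedBall hw)).1))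
    exact (holOn_iff isOpen_ball).1
      (hj.comp h1 (fun w hw => hBU w (ball_subset_closedBall hw)))
  have hlim := lim1 isOpen_ball hdif hunif2
  refine ⟨c.O ∩ c.pi ⁻¹' ball (c.pi z) r,
    c.hpi.continuousOn.isOpen_inter_preimage c.hO isOpen_ball, ⟨hc, mem_ball_self hr⟩,
    fun x => F (c.psi (c.pi x)), ?_, ?_⟩
  · exact hlim.comp (c.hpi.mono inter_subset_left) (fun x hx => hx.2)
  · rintro x ⟨hx1, hxU⟩
    have hxV : x ∈ V := by
      have : x ∈ V ∩ O0 := hU ▸ hxU
      exact this.1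
    dsimp only
    rw [(c.right hxV hx1.1).2]

end KP
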