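import Pool.Agent.Lib.KP.SpecG

/-!
# KP (MP_64edc4_ag), block G, Ident: identity theorem on submanifolds
-/

set_option autoImplicit false

open Set Filter Topology Metric

namespace KP

theorem tIdent : S_Ident := by
  intro N n m V U hUV hsm hconn f g hf hg z0 hz0 hfg
  obtain ⟨O0, hO0, hU⟩ := hUV
  haveI : PreconnectedSpace U := isPreconnected_iff_preconnectedSpace.1 hconn
  set A : Set U := {z : U | ∀ᶠ y in 𝓝 (z : Cn N), y ∈ U → f y = g y} with hA
  have hopen : IsOpen A := by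
    have h1 : IsOpen {z : Cn N | ∀ᶠ y in 𝓝 z, y ∈ U → f y = g y} := isOpen_setOf_eventually_nhds
    exact h1.preimage continuous_subtype_val
  have hclosed : IsClosed A := by
    refine isClosed_of_closure_subset ?_
    intro z hz
    obtain ⟨hzV, c, hc⟩ := hsm z z.2
    obtain ⟨hw0, hpz⟩ := c.right hzV hc
    have hzO0 : (z : Cn N) ∈ O0 := by
      have : (z : Cn N) ∈ V ∩ O0 := hU ▸ z.2
      exact this.2
    have hP : IsOpen (c.W ∩ c.psi ⁻¹' O0) :=
      c.hpsi.continuousOn.isOpen_inter_preimage c.hW hO0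
    have hPw : c.pi z ∈ c.W ∩ c.psi ⁻¹' O0 := ⟨hw0, by
      rw [mem_preimage, hpz]; exact hzO0⟩
    obtain ⟨r, hr, hball⟩ := Metric.isOpen_iff.1 hP _ hPw
    have hBU : ∀ w ∈ ball (c.pi z) r, c.psi w ∈ U := by
      intro w hw
      have h1 := hball hw
      rw [hU]
      exact ⟨(c.psi_mem h1.1).1, h1.2⟩
    have hpsiH : HolOn c.psi (ball (c.pi z) r) := (holOn_iff isOpen_ball).2
      (c.hpsi.mono (fun w hw => (hball hw).1))
    have hfd : DifferentiableOn ℂ (fun w => f (c.psi w)) (ball (c.pi z) r) :=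
      (holOn_iff isOpen_ball).1 (hf.comp hpsiH hBU)
    have hgd : DifferentiableOn ℂ (fun w => g (c.psi w)) (ball (c.pi z) r) :=
      (holOn_iff isOpen_ball).1 (hg.comp hpsiH hBU)
    have hO1 : IsOpen (c.O ∩ c.pi ⁻¹' ball (c.pi z) r) :=
      c.hpi.continuousOn.isOpen_inter_preimage c.hO isOpen_ball
    obtain ⟨a, ⟨ha1, ha2⟩⟩ := mem_closure_iff.1 hz
      (Subtype.val ⁻¹' (c.O ∩ c.pi ⁻¹' ball (c.pi z) r)) (hO1.preimage continuous_subtype_val)
      ⟨hc, mem_ball_self hr⟩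
    have haV : (a : Cn N) ∈ V := by
      have : (a : Cn N) ∈ V ∩ O0 := hU ▸ a.2
      exact this.1
    obtain ⟨hwa, hpa⟩ := c.right haV ha1.1
    have hcont : ContinuousAt c.psi (c.pi a) :=
      (c.hpsi.continuousOn).continuousAt (c.hW.mem_nhds hwa)
    have hev : (fun w => f (c.psi w)) =ᶠ[𝓝 (c.pi a)] (fun w => g (c.psi w)) := by
      have h1 : ∀ᶠ y in 𝓝 (c.psi (c.pi a)), y ∈ U → f y = g y := by
        rw [hpa]; exact ha2
      filter_upwards [hcont.eventually h1, isOpen_ball.mem_nhds ha1.2] with w h2 h3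
      exact h2 (hBU w h3)
    have heq := (Pool.Agent.Lib.Osgood.analyticOnNhd isOpen_ball hfd).eqOn_of_preconnected_of_eventuallyEq
      (Pool.Agent.Lib.Osgood.analyticOnNhd isOpen_ball hgd)
      (convex_ball (c.pi z) r).isPreconnected ha1.2 hev
    change ∀ᶠ y in 𝓝 (z : Cn N), y ∈ U → f y = g y
    filter_upwards [hO1.mem_nhds ⟨hc, mem_ball_self hr⟩] with y hy hyU
    have hyV : y ∈ V := by
      have : y ∈ V ∩ O0 := hU ▸ hyU
      exact this.1
    have h4 := heq hy.2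
    dsimp only at h4
    rwa [(c.right hyV hy.1).2] at h4
  have huniv : A = univ := IsClopen.eq_univ ⟨hclosed, hopen⟩ ⟨⟨z0, hz0⟩, hfg⟩
  intro y hy
  have : (⟨y, hy⟩ : U) ∈ A := by rw [huniv]; exact mem_univ _
  exact this.self_of_nhds hy

end KP
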