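import Pool.Agent.Lib.KP.SpecG

/-!
# KP (MP_64edc4_ag), block G, Mon: Montel's theorem on submanifolds
-/

set_option autoImplicit false

open Set Filter Topology Metric

namespace KP

theorem tMon (h1 : S_Asc) (h2 : S_Lip) (h3 : S_HLim) : S_Mon := by
  intro N n m V U hUV hsm f Um hUm hUnion hf
  have key : ∀ x ∈ U, ∃ r > 0, ∃ (C : ℝ) (k : ℕ), ∀ j ≥ k, ∀ y ∈ ball x r ∩ U, ‖f j y‖ ≤ C ∧
      ∀ y' ∈ ball x r ∩ U, ‖f j y - f j y'‖ ≤ C * ‖y - y'‖ := by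
    intro x hx
    have hx' : x ∈ ⋃ k, Um k := by rw [hUnion]; exact hx
    obtain ⟨k, hk⟩ := mem_iUnion.1 hx'
    obtain ⟨M, hM⟩ := hf k
    obtain ⟨k0, hk0⟩ := eventually_atTop.1 hM
    obtain ⟨r, hr, C, hC⟩ := h2 N n m V U (Um k) hUV (hUm k) x hk (hsm x hx) M
    obtain ⟨O1, hO1, hUO⟩ := hUm k
    have hxO : x ∈ O1 := by
      have : x ∈ U ∩ O1 := hUO ▸ hk
      exact this.2
    obtain ⟨r', hr', hball⟩ := Metric.isOpen_iff.1 hO1 x hxO
    refine ⟨min r r', lt_min hr hr', max C M, k0, fun j hj y hy => ?_⟩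
    have hyU : y ∈ Um k := by
      rw [hUO]
      exact ⟨hy.2, hball (ball_subset_ball (min_le_right _ _) hy.1)⟩
    refine ⟨((hk0 j hj).2 y hyU).trans (le_max_right _ _), fun y' hy' => ?_⟩
    refine (hC (f j) (hk0 j hj).1 (hk0 j hj).2 y
      ⟨ball_subset_ball (min_le_left _ _) hy.1, hy.2⟩ y'
      ⟨ball_subset_ball (min_le_left _ _) hy'.1, hy'.2⟩).trans ?_
    exact mul_le_mul_of_nonneg_right (le_max_left _ _) (norm_nonneg _)
  obtain ⟨φ, hφ, F, hF⟩ := h1 N m U f key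
  refine ⟨φ, hφ, F, ?_, hF⟩
  refine h3 N n m V U hUV hsm (fun j => f (φ j)) F ?_ hF
  intro z hz
  have hz' : z ∈ ⋃ k, Um k := by rw [hUnion]; exact hz
  obtain ⟨k, hk⟩ := mem_iUnion.1 hz'
  obtain ⟨M, hM⟩ := hf k
  refine ⟨Um k, hk, hUm k, ?_⟩
  filter_upwards [hφ.tendsto_atTop.eventually hM] with j hj
  exact hj.1

end KP
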