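import Pool.Agent.Lib.KP.SpecG

/-!
# KP, G/PeakL: convergence of automorphisms to a peak point (helper77)
-/

set_option autoImplicit false

open Set Filter Topology Metric

namespace KP

namespace PeakLAux

/-- uniform convergence and open neighbourhoods of the image -/
theorem evmap {N m : ℕ} {f : ℕ → Cn N → Cn m} {F : Cn N → Cn m} {Q : Set (Cn N)}
    (hQ : IsCompact Q) (h : TendstoUniformlyOn f F atTop Q) (hF : ContinuousOn F Q)
    {O : Set (Cn m)} (hO : IsOpen O) (hFO : ∀ x ∈ Q, F x ∈ O) :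
    ∀ᶠ j in atTop, ∀ x ∈ Q, f j x ∈ O := by
  have h1 : IsCompact (F '' Q) := hQ.image_of_continuousOn hF
  have h2 : F '' Q ⊆ O := by
    rintro _ ⟨x, hx, rfl⟩
    exact hFO x hx
  obtain ⟨δ, hδ, h3⟩ := h1.exists_thickening_subset_open hO h2
  rw [Metric.tendstoUniformlyOn_iff] at h
  filter_upwards [h δ hδ] with j hj x hx
  refine h3 ?_
  rw [mem_thickening_iff]
  exact ⟨F x, mem_image_of_mem F hx, by rw [dist_comm]; exact hj x hx⟩

/-- the connectedness argument -/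
theorem star {N n : ℕ} {I : Set (MvPolynomial (Fin N) ℂ)} {U : Set (Cn N)} (hU : IsDom I n U)
    {c : Chart (zeroSet I) n} {R : Set (Cn n)} {ρ ρ₁ : ℝ} (hρ : ρ₁ ≤ ρ)
    (hR : R ⊆ c.pre U ∩ ball 0 ρ) (hRo : IsOpen R) (hRc : IsOpen ((c.pre U ∩ ball 0 ρ) \ R))
    {g : Cn N → Cn N} (hg : ContinuousOn g U) (hgU : MapsTo g U U) {B : Set (Cn N)}
    (hB : IsPreconnected B) (hBU : B ⊆ U) (hgB : ∀ x ∈ B, g x ∈ c.O ∩ c.pi ⁻¹' ball 0 ρ₁)
    {k : Cn N} (hk : k ∈ B) {q : Cn n} (hq : q ∈ R) (hgk : g k = c.psi q) :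
    ∀ x ∈ B, c.pi (g x) ∈ R ∧ ‖c.pi (g x)‖ < ρ₁ ∧ c.psi (c.pi (g x)) = g x := by
  have hV : ∀ x ∈ B, g x ∈ zeroSet I := by
    intro x hx
    obtain ⟨O, hO, hUO⟩ := hU.opn
    have h1 := hgU (hBU hx)
    rw [hUO] at h1
    exact h1.1
  have hr : ∀ x ∈ B, c.pi (g x) ∈ c.W ∧ c.psi (c.pi (g x)) = g x := fun x hx =>
    c.right (hV x hx) (hgB x hx).1
  have hn : ∀ x ∈ B, ‖c.pi (g x)‖ < ρ₁ := by
    intro x hx
    have h1 := (hgB x hx).2
    rwa [mem_preimage, mem_ball_zero_iff] at h1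
  have hc : ContinuousOn (fun x => c.pi (g x)) B := by
    refine c.hpi.continuousOn.comp (hg.mono hBU) ?_
    intro x hx
    exact (hgB x hx).1
  have himg : IsPreconnected ((fun x => c.pi (g x)) '' B) := hB.image _ hc
  have hsub : (fun x => c.pi (g x)) '' B ⊆ R ∪ ((c.pre U ∩ ball 0 ρ) \ R) := by
    rintro _ ⟨x, hx, rfl⟩
    have h1 : c.pi (g x) ∈ c.pre U ∩ ball 0 ρ := by
      refine ⟨⟨(hr x hx).1, ?_⟩, ?_⟩
      · rw [(hr x hx).2]
        exact hgU (hBU hx)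
      · rw [mem_ball_zero_iff]
        exact (hn x hx).trans_le hρ
    by_cases h2 : c.pi (g x) ∈ R
    · exact Or.inl h2
    · exact Or.inr ⟨h1, h2⟩
  have hne : ((fun x => c.pi (g x)) '' B ∩ R).Nonempty := by
    refine ⟨q, ⟨k, hk, ?_⟩, hq⟩
    change c.pi (g k) = q
    rw [hgk, c.left _ (hR hq).1.1]
  have hfin := himg.subset_left_of_subset_union hRo hRc disjoint_sdiff_self_right hsub hne
  intro x hx
  exact ⟨hfin ⟨x, hx, rfl⟩, hn x hx, (hr x hx).2⟩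

end PeakLAux

open PeakLAux

theorem tPeakL (h1 : S_Mon) (h2 : S_Exh) (h3 : S_Ident) : S_PeakL := by
  intro N n I U G K hU hG c R hR hPeak q g k hq hq0 hgG hkK hgk
  obtain ⟨hc0, ρ, hρ, hρW, hRU, hRo, hRc⟩ := hR
  have hopn : ROpen U (zeroSet I) := hU.opn
  -- the subsequences
  obtain ⟨k0, hk0, φ₁, hφ₁, hφ₁k⟩ := hG.cpt.tendsto_subseq hkK
  obtain ⟨M, hM⟩ := hU.bdd.exists_norm_le
  obtain ⟨φ₂, hφ₂, F, hF, hunif⟩ := h1 N n N (zeroSet I) U hopn hU.smooth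
    (fun j => g (φ₁ j)) (fun _ => U) (fun _ => ⟨univ, isOpen_univ, (inter_univ U).symm⟩)
    (iUnion_const U) (fun _ => ⟨M, Eventually.of_forall fun j =>
      ⟨hG.hol _ (hgG _), fun x hx => hM _ (hG.maps _ (hgG _) hx)⟩⟩)
  have hφ : StrictMono (φ₁ ∘ φ₂) := hφ₁.comp hφ₂
  have hk : Tendsto (fun j => k ((φ₁ ∘ φ₂) j)) atTop (𝓝 k0) :=
    hφ₁k.comp hφ₂.tendsto_atTop
  have hq' : Tendsto (fun j => q ((φ₁ ∘ φ₂) j)) atTop (𝓝 0) := hq0.comp hφ.tendsto_atTop
  have hunif' : ∀ Q ⊆ U, IsCompact Q →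
      TendstoUniformlyOn (fun j => g ((φ₁ ∘ φ₂) j)) F atTop Q := hunif
  refine ⟨φ₁ ∘ φ₂, hφ, k0, hk0, hk, ?_⟩
  generalize φ₁ ∘ φ₂ = φ at hφ hk hq' hunif' ⊢
  have hk0U : k0 ∈ U := hG.sub hk0
  have hkU : ∀ j, k (φ j) ∈ U := fun j => hG.sub (hkK _)
  have hgc : ∀ j, ContinuousOn (g j) U := fun j => (hG.hol _ (hgG j)).continuousOn
  have hgU : ∀ j, MapsTo (g j) U U := fun j => hG.maps _ (hgG j)
  have hFc : ContinuousOn F U := hF.continuousOn
  have hUV : U ⊆ zeroSet I := by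
    obtain ⟨O, hO, hUO⟩ := hU.opn
    rw [hUO]
    exact inter_subset_left
  have hptw : ∀ x ∈ U, Tendsto (fun j => g (φ j) x) atTop (𝓝 (F x)) := by
    intro x hx
    exact (hunif' {x} (singleton_subset_iff.2 hx) isCompact_singleton).tendsto_at
      (mem_singleton x)
  -- the value at `k0`
  have hb : c.psi 0 ∈ zeroSet I ∩ c.O := c.psi_mem hc0
  have hpib : c.pi (c.psi 0) = 0 := c.left 0 hc0
  have hFk0 : F k0 = c.psi 0 := by
    have e1 : IsCompact (insert k0 (range fun j => k (φ j))) := hk.isCompact_insert_range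
    have e2 : insert k0 (range fun j => k (φ j)) ⊆ U := by
      refine insert_subset hk0U ?_
      rintro _ ⟨j, rfl⟩
      exact hkU j
    have e3 : Tendsto (fun j => g (φ j) (k (φ j))) atTop (𝓝 (F k0)) := by
      refine (hunif' _ e2 e1).tendsto_comp ((hFc.mono e2) k0 (mem_insert _ _)) ?_
      refine tendsto_nhdsWithin_iff.2 ⟨hk, Eventually.of_forall fun j => ?_⟩
      exact mem_insert_of_mem _ ⟨j, rfl⟩
    have e4 : Tendsto (fun j => g (φ j) (k (φ j))) atTop (𝓝 (c.psi 0)) := by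
      simp_rw [hgk]
      exact ((c.hpsi.continuousOn.continuousAt (c.hW.mem_nhds hc0)).tendsto).comp hq'
    exact tendsto_nhds_unique e3 e4
  -- neighbourhoods of `c.psi 0`
  have hOo : ∀ r : ℝ, IsOpen (c.O ∩ c.pi ⁻¹' ball 0 r) := fun r =>
    c.hpi.continuousOn.isOpen_inter_preimage c.hO isOpen_ball
  have hOb : ∀ r : ℝ, 0 < r → c.psi 0 ∈ c.O ∩ c.pi ⁻¹' ball 0 r := fun r hr =>
    ⟨hb.2, by rw [mem_preimage, hpib]; exact mem_ball_self hr⟩
  -- `F` is constant near `k0`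
  obtain ⟨hk0V, e, hk0e⟩ := hU.smooth k0 hk0U
  obtain ⟨hw0, hpw0⟩ := e.right hk0V hk0e
  have hpre : IsOpen (e.pre U) := hU.isOpen_pre e
  have hw0pre : e.pi k0 ∈ e.pre U := ⟨hw0, by rw [hpw0]; exact hk0U⟩
  have hFe : DifferentiableOn ℂ (fun w => F (e.psi w)) (e.pre U) := by
    rw [← holOn_iff hpre]
    refine hF.comp ?_ (fun w hw => hw.2)
    rw [holOn_iff hpre]
    exact e.hpsi.mono fun w hw => hw.1
  obtain ⟨r, hr, hrsub⟩ : ∃ r > 0, closedBall (e.pi k0) r ⊆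
      e.pre U ∩ (fun w => F (e.psi w)) ⁻¹' (c.O ∩ c.pi ⁻¹' ball 0 ρ) := by
    have e1 : IsOpen (e.pre U ∩ (fun w => F (e.psi w)) ⁻¹' (c.O ∩ c.pi ⁻¹' ball 0 ρ)) :=
      hFe.continuousOn.isOpen_inter_preimage hpre (hOo ρ)
    refine Metric.nhds_basis_closedBall.mem_iff.1 (e1.mem_nhds ⟨hw0pre, ?_⟩)
    rw [mem_preimage, hpw0, hFk0]
    exact hOb ρ hρ
  set w0 := e.pi k0 with hw0def
  have hQ1c : IsCompact (e.psi '' closedBall w0 r) :=
    (isCompact_closedBall w0 r).image_of_continuousOn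
      (e.hpsi.continuousOn.mono fun w hw => (hrsub hw).1.1)
  have hQ1U : e.psi '' closedBall w0 r ⊆ U := by
    rintro _ ⟨w, hw, rfl⟩
    exact (hrsub hw).1.2
  have hev1 : ∀ᶠ j in atTop, ∀ x ∈ e.psi '' closedBall w0 r,
      g (φ j) x ∈ c.O ∩ c.pi ⁻¹' ball 0 ρ := by
    refine evmap hQ1c (hunif' _ hQ1U hQ1c) (hFc.mono hQ1U) (hOo ρ) ?_
    rintro _ ⟨w, hw, rfl⟩
    exact (hrsub hw).2
  have hballU : ∀ s : ℝ, 0 < s → ∀ᶠ y in 𝓝 k0, y ∈ U → y ∈ e.psi '' ball w0 s := by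
    intro s hs
    have e1 : ContinuousAt e.pi k0 := e.hpi.continuousOn.continuousAt (e.hO.mem_nhds hk0e)
    filter_upwards [e.hO.mem_nhds hk0e, e1.preimage_mem_nhds (ball_mem_nhds w0 hs)] with y hy1 hy2 hy3
    exact ⟨e.pi y, hy2, (e.right (hUV hy3) hy1).2⟩
  have hev2 : ∀ᶠ j in atTop, k (φ j) ∈ e.psi '' ball w0 r := by
    filter_upwards [hk.eventually (hballU r hr)] with j hj
    exact hj (hkU j)
  have hBpre : IsPreconnected (e.psi '' ball w0 r) :=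
    (convex_ball w0 r).isPreconnected.image _
      (e.hpsi.continuousOn.mono fun w hw => (hrsub (ball_subset_closedBall hw)).1.1)
  have hBU : e.psi '' ball w0 r ⊆ U := (image_mono ball_subset_closedBall).trans hQ1U
  have hev3 : ∀ᶠ j in atTop, ∀ x ∈ e.psi '' ball w0 r, c.pi (g (φ j) x) ∈ R := by
    filter_upwards [hev1, hev2] with j hj1 hj2 x hx
    exact (star hU le_rfl hRU hRo hRc (hgc _) (hgU _) hBpre hBU
      (fun x hx => hj1 x (image_mono ball_subset_closedBall hx)) hj2 (hq _) (hgk _) x hx).1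
  have hclos : ∀ w ∈ ball w0 r, c.pi (F (e.psi w)) ∈ closure R := by
    intro w hw
    have e1 : F (e.psi w) ∈ c.O := (hrsub (ball_subset_closedBall hw)).2.1
    have e2 : Tendsto (fun j => c.pi (g (φ j) (e.psi w))) atTop (𝓝 (c.pi (F (e.psi w)))) :=
      ((c.hpi.continuousOn.continuousAt (c.hO.mem_nhds e1)).tendsto).comp
        (hptw _ (hBU ⟨w, hw, rfl⟩))
    refine mem_closure_of_tendsto e2 ?_
    filter_upwards [hev3] with j hj
    exact hj _ ⟨w, hw, rfl⟩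
  have hdiff : DifferentiableOn ℂ (fun w => c.pi (F (e.psi w))) (ball w0 r) :=
    c.hpi.comp (hFe.mono fun w hw => (hrsub (ball_subset_closedBall hw)).1)
      (fun w hw => (hrsub (ball_subset_closedBall hw)).2.1)
  have hzero : ∀ w ∈ ball w0 (r / 2), c.pi (F (e.psi w)) = 0 := by
    intro w hw
    have hv : ‖(2 : ℂ) • (w - w0)‖ < r := by
      rw [norm_smul, Complex.norm_ofNat]
      rw [mem_ball, dist_eq_norm] at hw
      linarith
    have hmem : ∀ t ∈ ball (0 : ℂ) 1, w0 + t • ((2 : ℂ) • (w - w0)) ∈ ball w0 r := by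
      intro t ht
      rw [mem_ball_zero_iff] at ht
      rw [mem_ball, dist_self_add_left, norm_smul]
      calc ‖t‖ * ‖(2 : ℂ) • (w - w0)‖ ≤ 1 * ‖(2 : ℂ) • (w - w0)‖ :=
            mul_le_mul_of_nonneg_right ht.le (norm_nonneg _)
        _ < r := by rw [one_mul]; exact hv
    have e1 := hPeak (fun t => c.pi (F (e.psi (w0 + t • ((2 : ℂ) • (w - w0))))))
      (hdiff.comp (by fun_prop) hmem) (fun t ht => hclos _ (hmem t ht)) (by
        simp only [zero_smul, add_zero]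
        rw [hpw0, hFk0, hpib]) (1 / 2) (by
        rw [mem_ball_zero_iff]
        norm_num)
    have e2 : w0 + (1 / 2 : ℂ) • ((2 : ℂ) • (w - w0)) = w := by
      rw [smul_smul]
      norm_num
    rw [e2] at e1
    exact e1
  have hFV : ∀ x ∈ U, F x ∈ zeroSet I := by
    intro x hx
    refine (isClosed_zeroSet I).mem_of_tendsto (hptw x hx) (Eventually.of_forall fun j => ?_)
    exact hUV (hgU _ hx)
  have hFb : ∀ y ∈ U, F y = c.psi 0 := by
    refine h3 N n N (zeroSet I) U hopn hU.smooth hU.conn.isPreconnected F (fun _ => c.psi 0) hF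
      (fun z _ => ⟨univ, isOpen_univ, mem_univ _, fun _ => c.psi 0,
        differentiableOn_const _, fun _ _ => rfl⟩) k0 hk0U ?_
    filter_upwards [hballU (r / 2) (by positivity)] with y hy hyU
    obtain ⟨w, hw, rfl⟩ := hy hyU
    have hw' : w ∈ closedBall w0 r :=
      ball_subset_closedBall (ball_subset_ball (by linarith) hw)
    have e1 := (c.right (hFV _ hyU) (hrsub hw').2.1).2
    rw [hzero w hw] at e1
    exact e1.symm
  -- the conclusion
  intro Q hQU hQc ρ' hρ'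
  obtain ⟨Um, hmono, hUn, hUm⟩ := h2 N n I U hU k0 hk0U
  obtain ⟨i, hi⟩ : ∃ i, Q ⊆ Um i := by
    have e1 : ∀ i, ∃ O : Set (Cn N), IsOpen O ∧ Um i = U ∩ O := fun i => (hUm i).1
    choose O hO hUO using e1
    obtain ⟨t, ht⟩ := hQc.elim_finite_subcover O hO (fun x hx => by
      have e2 : x ∈ ⋃ i, Um i := by rw [hUn]; exact hQU hx
      obtain ⟨i, hi⟩ := mem_iUnion.1 e2
      rw [hUO i] at hi
      exact mem_iUnion.2 ⟨i, hi.2⟩)
    refine ⟨t.sup id, fun x hx => ?_⟩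
    obtain ⟨i, hi, hxi⟩ := mem_iUnion₂.1 (ht hx)
    refine hmono (Finset.le_sup (f := id) hi) ?_
    rw [id, hUO i]
    exact ⟨hQU hx, hxi⟩
  obtain ⟨⟨Oi, hOi, hUOi⟩, hk0i, hconn, hcomp, hclU⟩ := hUm i
  have hUmU : Um i ⊆ U := subset_closure.trans hclU
  have hev4 : ∀ᶠ j in atTop, ∀ x ∈ closure (Um i),
      g (φ j) x ∈ c.O ∩ c.pi ⁻¹' ball 0 (min ρ ρ') := by
    refine evmap hcomp (hunif' _ hclU hcomp) (hFc.mono hclU) (hOo _) ?_
    intro x hx
    rw [hFb x (hclU hx)]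
    exact hOb _ (lt_min hρ hρ')
  have hev5 : ∀ᶠ j in atTop, k (φ j) ∈ Um i := by
    have e1 : k0 ∈ Oi := by
      rw [hUOi] at hk0i
      exact hk0i.2
    filter_upwards [hk.eventually (hOi.mem_nhds e1)] with j hj
    rw [hUOi]
    exact ⟨hkU j, hj⟩
  filter_upwards [hev4, hev5] with j hj4 hj5 x hx
  obtain ⟨e1, e2, e3⟩ := star hU (min_le_left ρ ρ') hRU hRo hRc (hgc _) (hgU _)
    hconn.isPreconnected hUmU (fun x hx => hj4 x (subset_closure hx)) hj5 (hq _) (hgk _) x (hi hx)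
  exact ⟨e1, e2.trans_le (min_le_right _ _), e3⟩

end KP
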