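import Pool.Agent.Lib.KP.SpecG

/-!
# KP, block G: the scaling theorem
-/

set_option autoImplicit false

open Set Filter Topology Metric

namespace KP

namespace ScaleAux

variable {N n m : ℕ}

/-- Induction over a connected set. -/
theorem conn_ind {X : Type} [TopologicalSpace X] {U T : Set X} (hU : IsPreconnected U)
    (ho : ∃ O, IsOpen O ∧ T = U ∩ O) (hne : T.Nonempty)
    (hcl : ∀ x ∈ U, x ∈ closure T → x ∈ T) : U ⊆ T := by
  obtain ⟨O, hO, hTO⟩ := ho
  rw [isPreconnected_iff_subset_of_disjoint] at hU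
  have h1 := hU O (closure T)ᶜ hO isClosed_closure.isOpen_compl ?_ ?_
  · rcases h1 with h1 | h1
    · intro x hx
      rw [hTO]
      exact ⟨hx, h1 hx⟩
    · obtain ⟨x, hx⟩ := hne
      have hxU : x ∈ U := by rw [hTO] at hx; exact hx.1
      exact absurd (subset_closure hx) (h1 hxU)
  · intro x hx
    by_cases h : x ∈ closure T
    · left
      have := hcl x hx h
      rw [hTO] at this
      exact this.2
    · exact Or.inr h
  · rw [eq_empty_iff_forall_notMem]
    rintro x ⟨hx, hxO, hxT⟩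
    exact hxT (subset_closure (by rw [hTO]; exact ⟨hx, hxO⟩))

/-- Evaluation of a sequence, which converges uniformly on compact sets, on a convergent sequence
of points. -/
theorem tendsto_eval {f : ℕ → Cn N → Cn m} {F : Cn N → Cn m} {U : Set (Cn N)}
    (hu : ∀ Q ⊆ U, IsCompact Q → TendstoUniformlyOn f F atTop Q) (hF : ContinuousOn F U)
    {y : ℕ → Cn N} {y0 : Cn N} (hy0 : y0 ∈ U) (hy : Tendsto y atTop (𝓝 y0))
    (hyU : ∀ᶠ j in atTop, y j ∈ U) : Tendsto (fun j => f j (y j)) atTop (𝓝 (F y0)) := by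
  classical
  let y' : ℕ → Cn N := fun j => if y j ∈ U then y j else y0
  have hy' : ∀ᶠ j in atTop, y' j = y j := by
    filter_upwards [hyU] with j hj
    simp only [y', if_pos hj]
  have hy'U : ∀ j, y' j ∈ U := by
    intro j
    simp only [y']
    split_ifs with h
    · exact h
    · exact hy0
  have hyt : Tendsto y' atTop (𝓝 y0) := hy.congr' (hy'.mono fun j hj => hj.symm)
  have hc : IsCompact (insert y0 (range y')) := hyt.isCompact_insert_range
  have hsub : insert y0 (range y') ⊆ U := by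
    rintro x (rfl | ⟨j, rfl⟩)
    · exact hy0
    · exact hy'U j
  have h1 := hu _ hsub hc
  have h2 : Tendsto (fun j => f j (y' j)) atTop (𝓝 (F y0)) := by
    refine tendsto_comp_of_locally_uniform_limit_within (s := insert y0 (range y'))
      ((hF.mono hsub) y0 (mem_insert _ _)) ?_ ?_
    · rw [tendsto_nhdsWithin_iff]
      exact ⟨hyt, Eventually.of_forall fun j => mem_insert_of_mem _ (mem_range_self j)⟩
    · intro u hu
      exact ⟨_, self_mem_nhdsWithin, h1 u hu⟩
  refine h2.congr' ?_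
  filter_upwards [hy'] with j hj
  rw [hj]

/-- The rescaled automorphisms are holomorphic. -/
theorem holG {V Q : Set (Cn N)} (c : Chart V n) {g : Cn N → Cn N} {b : Cn n → Cn n}
    (hg : HolOn g Q) (hb : Differentiable ℂ b)
    (h : ∀ x ∈ Q, c.pi (g x) ∈ c.W ∧ c.psi (c.pi (g x)) = g x) :
    HolOn (fun x => b (c.pi (g x))) Q := by
  have h1 : HolOn c.pi c.O := (holOn_iff c.hO).2 c.hpi
  have h2 : HolOn b univ := (holOn_iff isOpen_univ).2 hb.differentiableOn
  have h3 : MapsTo g Q c.O := fun x hx => by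
    obtain ⟨h4, h5⟩ := h x hx
    rw [← h5]
    exact (c.psi_mem h4).2
  exact HolOn.comp h2 (HolOn.comp h1 hg h3) (fun x _ => mem_univ _)

end ScaleAux

open ScaleAux in
theorem tScale (h1 : S_PeakL) (h2 : S_Bnd) (h3 : S_Mon) (h4 : S_Taut) (h5 : S_Exh) : S_Scale := by
  intro N n I U G K hU hG c R D x0 A B hR hS
  obtain ⟨ρ, hρ, hρW, hRsub, hRo, -⟩ := hR.rad
  have hRpre : R ⊆ c.pre U := fun x hx => (hRsub hx).1
  have hRW : ∀ x ∈ R, x ∈ c.W := fun x hx => (hRpre hx).1
  have hRU : ∀ x ∈ R, c.psi x ∈ U := fun x hx => (hRpre hx).2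
  have hUV : ROpen U (zeroSet I) := by
    obtain ⟨O, hO, hUO⟩ := hU.opn
    exact ⟨O, hO, hUO⟩
  -- the automorphisms
  have hex : ∀ j : ℕ, ∃ g f : Cn N → Cn N, g ∈ G ∧ f ∈ G ∧ f (c.psi (A j x0)) ∈ K ∧
      (∀ x ∈ U, g (f x) = x) ∧ ∀ x ∈ U, f (g x) = x := by
    intro j
    have hx : c.psi (A j x0) ∈ U := hRU _ (hS.start j)
    obtain ⟨f, hf, hf'⟩ := hG.cov _ hx
    obtain ⟨g, hg, hg1, hg2⟩ := hG.inv f hf
    exact ⟨g, f, hg, hf, hf'.self_of_nhds hx, hg1, hg2⟩
  choose g h hgG hhG hhK hgh hhg using hex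
  have hq0 : Tendsto (fun j => A j x0) atTop (𝓝 0) := by
    rw [Metric.tendsto_nhds]
    intro ε hε
    filter_upwards [hS.inside {x0} (singleton_subset_iff.2 hS.mem) isCompact_singleton ε hε]
      with j hj
    simpa using (hj x0 rfl).2
  obtain ⟨φ, hφ, k0, hk0, hk, hQ⟩ := h1 N n I U G K hU hG c R hR hS.peak (fun j => A j x0) g
    (fun j => h j (c.psi (A j x0))) hS.start hq0 hgG hhK (fun j => hgh j _ (hRU _ (hS.start j)))
  have hk0U : k0 ∈ U := hG.sub hk0
  -- the rescaled automorphisms are bounded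
  have hB := h2 N n I U G K hU hG c R D x0 A B hS hRpre φ (fun j => g (φ j))
    (fun j => h (φ j) (c.psi (A (φ j) x0))) k0 hφ.tendsto_atTop (fun j => hgG _) hk0U
    (fun j => hG.sub (hhK _)) hk (fun j => by
      rw [hgh (φ j) _ (hRU _ (hS.start (φ j)))]
      exact c.left _ (hRW _ (hS.start (φ j)))) hQ
  obtain ⟨Um, -, hUm, hUm'⟩ := h5 N n I U hU k0 hk0U
  obtain ⟨χ, hχ, G', hG', hGu⟩ := h3 N n n (zeroSet I) U hUV hU.smooth
    (fun j x => B (φ j) (c.pi (g (φ j) x))) Um (fun k => (hUm' k).1) hUm (by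
      intro k
      obtain ⟨-, -, -, hc, hcU⟩ := hUm' k
      obtain ⟨M, hM⟩ := hB _ hcU hc
      refine ⟨M, ?_⟩
      filter_upwards [hM, hQ _ hcU hc 1 one_pos] with j hj hj'
      refine ⟨?_, fun x hx => hj x (subset_closure hx)⟩
      refine holG c ((hG.hol _ (hgG (φ j))).mono fun x hx => hcU (subset_closure hx))
        (hS.difB (φ j)) ?_
      intro x hx
      obtain ⟨h6, h7, h8⟩ := hj' x (subset_closure hx)
      exact ⟨hRW _ h6, h8⟩)
  -- reindexing
  set ψ : ℕ → ℕ := fun j => φ (χ j) with hψ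
  have hψt : Tendsto ψ atTop atTop := hφ.tendsto_atTop.comp hχ.tendsto_atTop
  replace hk : Tendsto (fun j => h (ψ j) (c.psi (A (ψ j) x0))) atTop (𝓝 k0) :=
    hk.comp hχ.tendsto_atTop
  replace hQ : ∀ Q ⊆ U, IsCompact Q → ∀ ρ' > 0, ∀ᶠ j in atTop, ∀ x ∈ Q,
      c.pi (g (ψ j) x) ∈ R ∧ ‖c.pi (g (ψ j) x)‖ < ρ' ∧
        c.psi (c.pi (g (ψ j) x)) = g (ψ j) x :=
    fun Q hQU hQc ρ' hρ' => hχ.tendsto_atTop.eventually (hQ Q hQU hQc ρ' hρ')
  replace hGu : ∀ Q ⊆ U, IsCompact Q →
      TendstoUniformlyOn (fun j x => B (ψ j) (c.pi (g (ψ j) x))) G' atTop Q := hGu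
  -- the value at `k0`
  have hG0 : G' k0 = x0 := by
    have h6 := tendsto_eval hGu hG'.continuousOn hk0U hk
      (Eventually.of_forall fun j => hG.sub (hhK _))
    refine tendsto_nhds_unique h6 ?_
    refine tendsto_const_nhds.congr fun j => ?_
    rw [hgh (ψ j) _ (hRU _ (hS.start (ψ j))), c.left _ (hRW _ (hS.start (ψ j))), hS.BA]
  -- `G'` maps `U` into `D`
  have hGD : U ⊆ {x | x ∈ U ∧ G' x ∈ D} := by
    apply conn_ind hU.conn.isPreconnected
    · obtain ⟨O, hO, hO'⟩ := (_root_.continuousOn_iff'.1 hG'.continuousOn) D hS.opn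
      refine ⟨O, hO, ?_⟩
      ext x
      constructor
      · rintro ⟨hx, hx'⟩
        have : x ∈ G' ⁻¹' D ∩ U := ⟨hx', hx⟩
        rw [hO'] at this
        exact ⟨hx, this.1⟩
      · rintro ⟨hx, hx'⟩
        have : x ∈ O ∩ U := ⟨hx', hx⟩
        rw [← hO'] at this
        exact ⟨hx, this.1⟩
    · exact ⟨k0, hk0U, by rw [hG0]; exact hS.mem⟩
    · intro x hx hxc
      refine ⟨hx, ?_⟩
      obtain ⟨hxV, e, hxe⟩ := hU.smooth x hx
      obtain ⟨hw, hwx⟩ := e.right hxV hxe
      have hpre : e.pi x ∈ e.pre U := ⟨hw, by rw [hwx]; exact hx⟩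
      obtain ⟨r', hr', hr'U⟩ := Metric.isOpen_iff.1 (hU.isOpen_pre e) _ hpre
      obtain ⟨r, hr, hrr'⟩ : ∃ r : ℝ, 0 < r ∧ 3 * r < r' := ⟨r' / 4, by positivity, by linarith⟩
      have hcb : closedBall (e.pi x) (3 * r) ⊆ e.pre U :=
        (closedBall_subset_ball hrr').trans hr'U
      -- a point of the set close to `x`
      have hnh : e.O ∩ e.pi ⁻¹' ball (e.pi x) r ∈ 𝓝 x :=
        inter_mem (e.hO.mem_nhds hxe) ((e.hpi.continuousOn.continuousAt
          (e.hO.mem_nhds hxe)).preimage_mem_nhds (ball_mem_nhds _ hr))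
      obtain ⟨y, ⟨hyO, hyr⟩, hyU, hyD⟩ := mem_closure_iff_nhds.1 hxc _ hnh
      have hyV : y ∈ zeroSet I := by
        obtain ⟨O, hO, hUO⟩ := hU.opn
        rw [hUO] at hyU
        exact hyU.1
      obtain ⟨hw', hwy⟩ := e.right hyV hyO
      set w := e.pi x with hwdef
      set w' := e.pi y with hw'def
      have hd : ‖w - w'‖ < r := by
        have : dist w' w < r := hyr
        rwa [dist_comm, dist_eq_norm] at this
      -- the discs
      set L : ℂ → Cn n := fun t => w' + t • ((2 : ℂ) • (w - w')) with hL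
      have hLd : Differentiable ℂ L := by
        intro t
        exact (differentiableAt_id.smul_const _).const_add _
      have hLball : ∀ t ∈ ball (0 : ℂ) 1, L t ∈ ball w (3 * r) := by
        intro t ht
        have ht' : ‖t‖ < 1 := by simpa using ht
        rw [mem_ball, dist_eq_norm]
        have h6 : L t - w = -(w - w') + t • ((2 : ℂ) • (w - w')) := by
          simp only [hL]; abel
        rw [h6]
        calc ‖-(w - w') + t • ((2 : ℂ) • (w - w'))‖
            ≤ ‖-(w - w')‖ + ‖t • ((2 : ℂ) • (w - w'))‖ := norm_add_le _ _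
          _ = ‖w - w'‖ + ‖t‖ * (2 * ‖w - w'‖) := by
              rw [norm_neg, norm_smul, norm_smul]; norm_num
          _ < r + 1 * (2 * r) := by
              have : ‖t‖ * (2 * ‖w - w'‖) ≤ 1 * (2 * r) := by gcongr
              linarith
          _ = 3 * r := by ring
      set Q := e.psi '' closedBall w (3 * r) with hQdef
      have hQU : Q ⊆ U := by
        rintro _ ⟨v, hv, rfl⟩
        exact (hcb hv).2
      have hQc : IsCompact Q := (isCompact_closedBall _ _).image_of_continuousOn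
        (e.hpsi.continuousOn.mono fun v hv => (hcb hv).1)
      have hLQ : ∀ t ∈ ball (0 : ℂ) 1, e.psi (L t) ∈ Q := fun t ht =>
        mem_image_of_mem _ (ball_subset_closedBall (hLball t ht))
      obtain ⟨J, hJ, hJQ⟩ := extraction_forall_of_eventually (fun i : ℕ =>
        hQ Q hQU hQc (1 / ((i : ℝ) + 1)) Nat.one_div_pos_of_nat)
      have hdisc : ∀ F : Cn N → Cn n, HolOn F Q →
          DifferentiableOn ℂ (fun t => F (e.psi (L t))) (ball 0 1) := by
        intro F hF
        have h6 : DifferentiableOn ℂ (fun v => F (e.psi v)) (ball w (3 * r)) := by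
          rw [← holOn_iff isOpen_ball]
          refine HolOn.comp hF ((holOn_iff isOpen_ball).2 (e.hpsi.mono fun v hv =>
            (hcb (ball_subset_closedBall hv)).1)) ?_
          intro v hv
          exact mem_image_of_mem _ (ball_subset_closedBall hv)
        exact h6.comp hLd.differentiableOn hLball
      have hlim := hS.limit (fun i => ψ (J i)) (fun i => 1 / ((i : ℝ) + 1))
        (fun i t => B (ψ (J i)) (c.pi (g (ψ (J i)) (e.psi (L t)))))
        (fun t => G' (e.psi (L t))) (hψt.comp hJ.tendsto_atTop)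
        tendsto_one_div_add_atTop_nhds_zero_nat
        (fun i => hdisc (fun z => B (ψ (J i)) (c.pi (g (ψ (J i)) z)))
          (holG c ((hG.hol _ (hgG (ψ (J i)))).mono hQU)
          (hS.difB (ψ (J i))) fun z hz => ⟨hRW _ (hJQ i z hz).1, (hJQ i z hz).2.2⟩))
        (hdisc G' (hG'.mono hQU))
        (fun t ht => ((hGu Q hQU hQc).tendsto_at (hLQ t ht)).comp hJ.tendsto_atTop)
        (fun i t ht => by
          rw [hS.AB]
          exact ⟨(hJQ i _ (hLQ t ht)).1, (hJQ i _ (hLQ t ht)).2.1⟩)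
        (by
          have : e.psi (L 0) = y := by simp only [hL, zero_smul, add_zero]; exact hwy
          rw [this]; exact hyD)
        (1 / 2) (by simp only [mem_ball, dist_zero_right]; norm_num)
      have h7 : e.psi (L (1 / 2)) = x := by
        have : L (1 / 2) = w := by
          simp only [hL, smul_smul]
          norm_num
        rw [this]; exact hwx
      rw [← h7]
      exact hlim
  have hGD' : MapsTo G' U D := fun x hx => (hGD hx).2
  -- the inverse maps
  obtain ⟨χ', hχ', F', hF', hFU, hFu⟩ := h4 N n n I U G K hU hG D x0 hS.opn hS.conn hS.mem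
    (fun j x => h (ψ j) (c.psi (A (ψ j) x))) (by
      intro Q hQD hQc
      obtain ⟨L, hL, hQL, hLD⟩ := exists_compact_between hQc hS.opn hQD
      filter_upwards [hψt.eventually (hS.inside L hLD hL 1 one_pos)] with j hj
      refine ⟨interior L, isOpen_interior, hQL, ?_, ?_⟩
      · rw [← holOn_iff isOpen_interior]
        have h6 : HolOn c.psi c.W := (holOn_iff c.hW).2 c.hpsi
        have h7 : HolOn (A (ψ j)) (interior L) :=
          (holOn_iff isOpen_interior).2 (hS.difA (ψ j)).differentiableOn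
        have h8 : HolOn (fun x => c.psi (A (ψ j) x)) (interior L) :=
          HolOn.comp h6 h7 fun x hx => hRW _ (hj x (interior_subset hx)).1
        exact HolOn.comp (hG.hol _ (hhG (ψ j))) h8
          fun x hx => hRU _ (hj x (interior_subset hx)).1
      · intro x hx
        exact hG.maps _ (hhG (ψ j)) (hRU _ (hj x (interior_subset hx)).1))
    (fun j => hhK (ψ j))
  refine ⟨G', F', hG', (holOn_iff hS.opn).2 hF', hGD', hFU, ?_, ?_⟩
  · -- `F' (G' x) = x`
    intro x hx
    have h6 : Tendsto (fun j => B (ψ (χ' j)) (c.pi (g (ψ (χ' j)) x))) atTop (𝓝 (G' x)) :=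
      ((hGu {x} (singleton_subset_iff.2 hx) isCompact_singleton).tendsto_at rfl).comp
        hχ'.tendsto_atTop
    have h7 := tendsto_eval hFu hF'.continuousOn (hGD' hx) h6
      (h6.eventually (hS.opn.mem_nhds (hGD' hx)))
    refine tendsto_nhds_unique h7 (tendsto_const_nhds.congr' ?_)
    filter_upwards [hχ'.tendsto_atTop.eventually
      (hQ {x} (singleton_subset_iff.2 hx) isCompact_singleton 1 one_pos)] with j hj
    rw [hS.AB, (hj x rfl).2.2, hhg _ _ hx]
  · -- `G' (F' x) = x`
    intro x hx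
    have h6 : Tendsto (fun j => h (ψ (χ' j)) (c.psi (A (ψ (χ' j)) x))) atTop (𝓝 (F' x)) :=
      (hFu {x} (singleton_subset_iff.2 hx) isCompact_singleton).tendsto_at rfl
    have hin : ∀ᶠ j in atTop, A (ψ (χ' j)) x ∈ R :=
      (hψt.comp hχ'.tendsto_atTop).eventually ((hS.inside {x} (singleton_subset_iff.2 hx)
        isCompact_singleton 1 one_pos).mono fun j hj => (hj x rfl).1)
    have h7 := tendsto_eval (f := fun j x => B (ψ (χ' j)) (c.pi (g (ψ (χ' j)) x)))
      (F := G') (U := U) (fun Q hQU hQc => by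
        have h8 := hGu Q hQU hQc
        intro u hu
        exact hχ'.tendsto_atTop.eventually (h8 u hu)) hG'.continuousOn (hFU hx) h6
      (hin.mono fun j hj => hG.maps _ (hhG _) (hRU _ hj))
    refine tendsto_nhds_unique h7 (tendsto_const_nhds.congr' ?_)
    filter_upwards [hin] with j hj
    rw [hgh _ _ (hRU _ hj), c.left _ (hRW _ hj), hS.BA]

end KP
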