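import Pool.Agent.Lib.KP.SpecG

set_option autoImplicit false

open Set Filter Topology Metric

namespace KP

namespace StepAux

private theorem disc {N : ℕ} {f : ℂ → Cn N} {M : ℝ} (hf : DifferentiableOn ℂ f (ball 0 1))
    (hM : ∀ w ∈ ball (0 : ℂ) 1, ‖f w‖ ≤ M) {t : ℂ} (ht : ‖t‖ < 1 / 2) :
    ‖f t - f 0‖ ≤ 2 * M * ‖t‖ := by
  have hsub : ball (0 : ℂ) (1 / 2) ⊆ ball 0 1 := ball_subset_ball (by norm_num)
  have h := Convex.norm_image_sub_le_of_norm_fderiv_le (𝕜 := ℂ) (f := f)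
    (s := ball (0 : ℂ) (1 / 2)) (C := 2 * M) (x := 0) (y := t) ?_ ?_
    (convex_ball _ _) (mem_ball_self (by norm_num)) (by simpa using ht)
  · simpa using h
  · intro x hx
    exact (hf x (hsub hx)).differentiableAt (isOpen_ball.mem_nhds (hsub hx))
  · intro x hx
    have h1 := Pool.Agent.Lib.Osgood.norm_fderiv_le' (f := f) (z := 0) (R := 1) (r := 1 / 2)
      (M := M) (by norm_num) hf hM (ball_subset_closedBall hx)
    have h2 : M / (1 - 1 / 2) = 2 * M := by ring
    rwa [h2] at h1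

private theorem compd {N : ℕ} {f : ℂ → Cn N} {g : Cn N → Cn N} {U : Set (Cn N)}
    (hf : DifferentiableOn ℂ f (ball 0 1)) (hfU : MapsTo f (ball 0 1) U) (hg : HolOn g U) :
    DifferentiableOn ℂ (fun t => g (f t)) (ball 0 1) := by
  intro t ht
  obtain ⟨O, hO, hzO, g1, hg1, hgg⟩ := hg (f t) (hfU ht)
  have hft : DifferentiableAt ℂ f t := (hf t ht).differentiableAt (isOpen_ball.mem_nhds ht)
  have h1 : DifferentiableAt ℂ g1 (f t) := (hg1 _ hzO).differentiableAt (hO.mem_nhds hzO)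
  have h2 : DifferentiableAt ℂ (fun t => g1 (f t)) t := h1.comp t hft
  refine (h2.congr_of_eventuallyEq ?_).differentiableWithinAt
  filter_upwards [hft.continuousAt.preimage_mem_nhds (hO.mem_nhds hzO), isOpen_ball.mem_nhds ht]
    with s hs hs'
  exact hgg (f s) ⟨hs, hfU hs'⟩

end StepAux

open StepAux in
theorem tStep (h1 : S_CovF) : S_Step := by
  intro N n I U G K hU hG
  obtain ⟨O, hO, hUO⟩ := hU.opn
  have hKO : K ⊆ O := fun x hx => by
    have := hG.sub hx
    rw [hUO] at this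
    exact this.2
  obtain ⟨r, hr, hrO⟩ := hG.cpt.exists_cthickening_subset_open hO hKO
  set K' : Set (Cn N) := cthickening r K ∩ zeroSet I with hK'
  have hK'c : IsCompact K' := (hG.cpt.cthickening).inter_right (isClosed_zeroSet I)
  have hK'U : K' ⊆ U := by
    intro x hx
    rw [hUO]
    exact ⟨hx.2, hrO hx.1⟩
  obtain ⟨M₀, hM₀⟩ := hU.bdd.exists_norm_le
  set M : ℝ := max M₀ 1 with hM
  have hM0 : 0 < M := lt_of_lt_of_le one_pos (le_max_right _ _)
  have hMU : ∀ x ∈ U, ‖x‖ ≤ M := fun x hx => (hM₀ x hx).trans (le_max_left _ _)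
  set δ : ℝ := min (1 / 4) (r / (2 * M)) with hδ
  have hδ0 : 0 < δ := lt_min (by norm_num) (by positivity)
  have hδ4 : δ ≤ 1 / 4 := min_le_left _ _
  have hδr : 2 * M * δ ≤ r := by
    have : δ ≤ r / (2 * M) := min_le_right _ _
    rw [le_div_iff₀ (by positivity)] at this
    linarith
  refine ⟨δ, hδ0, by linarith, ?_⟩
  intro Q hQU hQ
  obtain ⟨S, hSG, hS⟩ := h1 N U G K hG Q hQU hQ
  have hinv := hG.inv
  choose! h hh1 hh2 hh3 using hinv
  refine ⟨Q ∪ ⋃ g ∈ S, h g '' K', ?_, ?_, subset_union_left, ?_⟩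
  · apply union_subset hQU
    intro x hx
    simp only [mem_iUnion, mem_image, exists_prop] at hx
    obtain ⟨g, hg, y, hy, rfl⟩ := hx
    exact hG.maps _ (hh1 g (hSG g hg)) (hK'U hy)
  · refine hQ.union (S.isCompact_biUnion fun g hg => ?_)
    exact hK'c.image_of_continuousOn ((hG.hol _ (hh1 g (hSG g hg))).continuousOn.mono hK'U)
  · intro f hf hfU hf0 t ht
    obtain ⟨g, hgS, hgK⟩ := hS (f 0) hf0
    have hgG := hSG g hgS
    right
    simp only [mem_iUnion, mem_image, exists_prop]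
    have ht1 : t ∈ ball (0 : ℂ) 1 := by
      rw [mem_ball_zero_iff]; linarith
    refine ⟨g, hgS, g (f t), ⟨?_, ?_⟩, hh2 g hgG _ (hfU ht1)⟩
    · have hd := disc (compd hf hfU (hG.hol g hgG)) (M := M)
        (fun w hw => hMU _ (hG.maps g hgG (hfU hw))) (t := t) (by linarith)
      refine mem_cthickening_of_dist_le _ (g (f 0)) _ _ hgK ?_
      rw [dist_eq_norm]
      calc ‖g (f t) - g (f 0)‖ ≤ 2 * M * ‖t‖ := hd
        _ ≤ 2 * M * δ := by gcongr
        _ ≤ r := hδr
    · have := hG.maps g hgG (hfU ht1)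
      rw [hUO] at this
      exact this.1

end KP
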