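import Pool.Agent.Lib.KP.SpecG

set_option autoImplicit false

open Set Filter Topology Metric

namespace KP

theorem tTaut (h1 : S_Step) (h2 : S_Mon) : S_Taut := by
  classical
  intro N n m I U G K hU hG D x0 hD hDc hx0 F hF hFK
  obtain ⟨δ, hδ0, hδ1, hstep⟩ := h1 N n I U G K hU hG
  -- the claim
  have claim : ∀ (y : Cn m) (r : ℝ), 0 < r → closedBall y r ⊆ D → ∀ Q ⊆ U, IsCompact Q →
      (∀ᶠ j in atTop, F j y ∈ Q) → ∃ Q' ⊆ U, IsCompact Q' ∧
        ∀ᶠ j in atTop, ∀ x ∈ ball y (δ * r), F j x ∈ Q' := by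
    intro y r hr hball Q hQU hQ hFQ
    obtain ⟨Q', hQ'U, hQ', _, hd⟩ := hstep Q hQU hQ
    refine ⟨Q', hQ'U, hQ', ?_⟩
    filter_upwards [hFQ, hF (closedBall y r) hball (isCompact_closedBall _ _)] with j hj hO x hx
    obtain ⟨O, hOo, hyO, hdif, hmaps⟩ := hO
    set v : Cn m := (δ⁻¹ : ℂ) • (x - y) with hv
    have hvn : ‖v‖ < r := by
      rw [hv, norm_smul, norm_inv, Complex.norm_real, Real.norm_eq_abs, abs_of_pos hδ0,
        inv_mul_lt_iff₀ hδ0]
      rw [mem_ball, dist_eq_norm] at hx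
      exact hx
    have hin : ∀ t ∈ ball (0 : ℂ) 1, y + t • v ∈ O := by
      intro t ht
      apply hyO
      rw [mem_closedBall, dist_eq_norm, add_sub_cancel_left, norm_smul]
      rw [mem_ball_zero_iff] at ht
      nlinarith [norm_nonneg t, norm_nonneg v]
    have hδv : y + (δ : ℂ) • v = x := by
      rw [hv, smul_smul, mul_inv_cancel₀ (by exact_mod_cast hδ0.ne'), one_smul]
      abel
    have key := hd (fun t => F j (y + t • v)) ?_ ?_ ?_ (δ : ℂ) ?_
    · simp only [hδv] at key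
      exact key
    · refine hdif.comp ?_ hin
      exact (Differentiable.differentiableOn (by fun_prop))
    · intro t ht
      exact hmaps (hin t ht)
    · simp only [zero_smul, add_zero]
      exact hj
    · rw [Complex.norm_real, Real.norm_eq_abs, abs_of_pos hδ0]
  set P : Cn m → Prop := fun x => ∃ Q ⊆ U, IsCompact Q ∧ ∀ᶠ j in atTop, F j x ∈ Q with hP
  have hloc : ∀ x ∈ D, ∀ᶠ y in 𝓝[D] x, (P x ↔ P y) := by
    intro x hx
    obtain ⟨r, hr, hball⟩ := nhds_basis_closedBall.mem_iff.1 (hD.mem_nhds hx)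
    have hr2 : 0 < r / 2 := by positivity
    have hδr : 0 < δ * (r / 2) := by positivity
    have hδr' : δ * (r / 2) ≤ r / 2 := by nlinarith
    filter_upwards [mem_nhdsWithin_of_mem_nhds (ball_mem_nhds x hδr)] with y hy
    constructor
    · rintro ⟨Q, hQU, hQ, hFQ⟩
      obtain ⟨Q', hQ'U, hQ', h⟩ := claim x (r / 2) hr2
        ((closedBall_subset_closedBall (by linarith)).trans hball) Q hQU hQ hFQ
      exact ⟨Q', hQ'U, hQ', h.mono fun j hj => hj y hy⟩
    · rintro ⟨Q, hQU, hQ, hFQ⟩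
      have hsub : closedBall y (r / 2) ⊆ D := by
        intro z hz
        apply hball
        rw [mem_closedBall] at hz ⊢
        rw [mem_ball] at hy
        have := dist_triangle z y x
        linarith
      obtain ⟨Q', hQ'U, hQ', h⟩ := claim y (r / 2) hr2 hsub Q hQU hQ hFQ
      refine ⟨Q', hQ'U, hQ', h.mono fun j hj => hj x ?_⟩
      rw [mem_ball, dist_comm]
      exact hy
  have hP0 : P x0 := ⟨K, hG.sub, hG.cpt, Eventually.of_forall hFK⟩
  have hPall : ∀ x ∈ D, P x := by
    intro x hx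
    have := hDc.induction₂ (fun x y => (P x ↔ P y)) hloc (fun x y z _ _ _ h h' => h.trans h')
      (fun x y _ _ h => h.symm) hx0 hx
    exact this.1 hP0
  -- the cover by balls
  have hex : ∀ x ∈ D, ∃ r : ℝ, 0 < r ∧ closedBall x r ⊆ D := fun x hx =>
    nhds_basis_closedBall.mem_iff.1 (hD.mem_nhds hx)
  choose! r hr hrD using hex
  obtain ⟨t, htD, htc, hcov⟩ := TopologicalSpace.countable_cover_nhdsWithin
    (f := fun x => ball x (r x)) (s := D)
    (fun x hx => mem_nhdsWithin_of_mem_nhds (ball_mem_nhds x (hr x hx)))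
  have htne : t.Nonempty := by
    obtain ⟨x, hx⟩ := mem_iUnion.1 (hcov hx0)
    obtain ⟨hx, _⟩ := mem_iUnion.1 hx
    exact ⟨x, hx⟩
  obtain ⟨f, hf⟩ := htc.exists_eq_range htne
  have hfD : ∀ i, f i ∈ D := fun i => htD (by rw [hf]; exact mem_range_self i)
  obtain ⟨M, hM⟩ := hU.bdd.exists_norm_le
  obtain ⟨φ, hφ, F', hF', hlim⟩ := h2 m m N univ D ⟨D, hD, (univ_inter D).symm⟩
    (fun z _ => ⟨mem_univ z, Chart.idc univ isOpen_univ, mem_univ z⟩) F
    (fun k => ball (f k) (r (f k)))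
    (fun k => ⟨ball (f k) (r (f k)), isOpen_ball, by
      rw [inter_eq_right.2 (ball_subset_closedBall.trans (hrD _ (hfD k)))]⟩)
    (by
      apply Subset.antisymm
      · exact iUnion_subset fun k => ball_subset_closedBall.trans (hrD _ (hfD k))
      · intro x hx
        obtain ⟨y, hy⟩ := mem_iUnion.1 (hcov hx)
        obtain ⟨hyt, hy⟩ := mem_iUnion.1 hy
        rw [hf] at hyt
        obtain ⟨i, rfl⟩ := hyt
        exact mem_iUnion.2 ⟨i, hy⟩)
    (by
      intro k
      refine ⟨M, ?_⟩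
      filter_upwards [hF (closedBall (f k) (r (f k))) (hrD _ (hfD k)) (isCompact_closedBall _ _)] with j hj
      obtain ⟨O, hOo, hyO, hdif, hmaps⟩ := hj
      constructor
      · rw [holOn_iff isOpen_ball]
        exact hdif.mono (ball_subset_closedBall.trans hyO)
      · intro x hx
        exact hM _ (hmaps (hyO (ball_subset_closedBall hx))))
  refine ⟨φ, hφ, F', (holOn_iff hD).1 hF', ?_, hlim⟩
  intro x hx
  obtain ⟨Q, hQU, hQ, hFQ⟩ := hPall x hx
  have h3 : Tendsto (fun j => F (φ j) x) atTop (𝓝 (F' x)) :=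
    (hlim {x} (singleton_subset_iff.2 hx) isCompact_singleton).tendsto_at (mem_singleton x)
  exact hQU (hQ.isClosed.mem_of_tendsto h3 (hφ.tendsto_atTop.eventually hFQ))

end KP
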