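import Pool.Agent.Lib.KP.SpecG

/-!
# KP, block G: no boundary point across which all bounded holomorphic maps extend
-/

set_option autoImplicit false

open Set Filter Topology Metric

namespace KP

namespace LemHAux

variable {N n m : ℕ}

/-- Identity theorem on balls. -/
theorem ident_ball {F : Type} [NormedAddCommGroup F] [NormedSpace ℂ F] [CompleteSpace F]
    {f g : Cn n → F} {z : Cn n} {r : ℝ} (hf : DifferentiableOn ℂ f (ball z r))
    (hg : DifferentiableOn ℂ g (ball z r)) {w : Cn n} (hw : w ∈ ball z r)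
    (h : ∀ᶠ x in 𝓝 w, f x = g x) : ∀ x ∈ ball z r, f x = g x := by
  have h1 : AnalyticOnNhd ℂ f (ball z r) := Pool.Agent.Lib.Osgood.analyticOnNhd isOpen_ball hf
  have h2 : AnalyticOnNhd ℂ g (ball z r) := Pool.Agent.Lib.Osgood.analyticOnNhd isOpen_ball hg
  have h3 := h1.eqOn_of_preconnected_of_eventuallyEq h2 (convex_ball z r).isPreconnected hw h
  exact fun x hx => h3 hx

theorem lip {F : Type} [NormedAddCommGroup F] [NormedSpace ℂ F] {f : Cn n → F} {ρ M : ℝ}
    (hρ : 0 < ρ) (hf : DifferentiableOn ℂ f (ball 0 ρ)) (hM : ∀ w ∈ ball (0 : Cn n) ρ, ‖f w‖ ≤ M)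
    {x y : Cn n} (hx : x ∈ ball (0 : Cn n) (ρ / 2)) (hy : y ∈ ball (0 : Cn n) (ρ / 2)) :
    ‖f y - f x‖ ≤ M / (ρ - ρ / 2) * ‖y - x‖ := by
  refine Convex.norm_image_sub_le_of_norm_fderiv_le (𝕜 := ℂ) (s := ball (0 : Cn n) (ρ / 2)) ?_ ?_
    (convex_ball _ _) hx hy
  · intro u hu
    have hu' : u ∈ ball (0 : Cn n) ρ := ball_subset_ball (by linarith) hu
    exact (hf u hu').differentiableAt (isOpen_ball.mem_nhds hu')
  · intro u hu
    exact Pool.Agent.Lib.Osgood.norm_fderiv_le' (by linarith) hf hM (ball_subset_closedBall hu)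

/-- polynomials are differentiable -/
theorem diff_eval (p : MvPolynomial (Fin N) ℂ) :
    Differentiable ℂ (fun z : Cn N => MvPolynomial.eval z p) := by
  induction p using MvPolynomial.induction_on with
  | C a => simp
  | add p q hp hq =>
    simp only [map_add]
    exact hp.add hq
  | mul_X p i hp =>
    simp only [map_mul, MvPolynomial.eval_X]
    exact hp.mul (differentiable_apply i)

/-- An automorphism which maps the point into `K`, and its inverse. -/
theorem exists_aut {U : Set (Cn N)} {G : Set (Cn N → Cn N)} {K : Set (Cn N)} (h : CoCpt U G K)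
    {x : Cn N} (hx : x ∈ U) : ∃ g f : Cn N → Cn N, HolOn g U ∧ HolOn f U ∧ MapsTo g U U ∧
      MapsTo f U U ∧ f x ∈ K ∧ ∀ y ∈ U, g (f y) = y := by
  obtain ⟨f, hf, hf'⟩ := h.cov x hx
  obtain ⟨g, hg, hg1, hg2⟩ := h.inv f hf
  exact ⟨g, f, h.hol g hg, h.hol f hf, h.maps g hg, h.maps f hf, hf'.self_of_nhds hx, hg1⟩

end LemHAux

open LemHAux in
theorem tLemH (_h1 : S_Mon) (_h2 : S_Ident) : S_LemH := by
  intro N n I U G K hU hG c R R' ρ h0 hbd hR hR' hRc hRR hcl hρ hext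
  obtain ⟨M, hM⟩ := hU.bdd.exists_norm_le
  obtain ⟨O, hO, hUO⟩ := hU.opn
  have hKO : K ⊆ O := fun x hx => by
    have := hG.sub hx
    rw [hUO] at this
    exact this.2
  obtain ⟨δ, hδ, hδO⟩ := hG.cpt.exists_thickening_subset_open hO hKO
  -- the small radius
  obtain ⟨ρ1, hρ1, hρ1W⟩ := Metric.isOpen_iff.1 c.hW 0 h0
  have hM' : 0 ≤ max M 0 := le_max_right _ _
  obtain ⟨ρ2, hρ2, hρ2'⟩ : ∃ ρ2 : ℝ, 0 < ρ2 ∧ (max M 0 / (ρ - ρ / 2)) * (2 * ρ2) < δ := by
    refine ⟨δ / (4 * (max M 0 / (ρ - ρ / 2) + 1)), ?_, ?_⟩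
    · have : 0 ≤ max M 0 / (ρ - ρ / 2) := div_nonneg hM' (by linarith)
      positivity
    · have h1 : 0 ≤ max M 0 / (ρ - ρ / 2) := div_nonneg hM' (by linarith)
      set a := max M 0 / (ρ - ρ / 2) with ha
      have h2 : a * (2 * (δ / (4 * (a + 1)))) = (a / (a + 1)) * (δ / 2) := by
        field_simp; ring
      rw [h2]
      have h3 : a / (a + 1) ≤ 1 := by
        rw [div_le_one (by linarith)]; linarith
      calc a / (a + 1) * (δ / 2) ≤ 1 * (δ / 2) := by gcongr
        _ < δ := by linarith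
  set r := min ρ1 (min ρ2 (ρ / 2)) with hr
  have hr0 : 0 < r := lt_min hρ1 (lt_min hρ2 (by linarith))
  have hr1 : r ≤ ρ1 := min_le_left _ _
  have hr2 : r ≤ ρ2 := (min_le_right _ _).trans (min_le_left _ _)
  have hr3 : r ≤ ρ / 2 := (min_le_right _ _).trans (min_le_right _ _)
  -- a point of `R'` in the small ball
  obtain ⟨w0, hw0, hw0R⟩ := mem_closure_iff.1 hcl (ball 0 r) isOpen_ball (mem_ball_self hr0)
  have hw0U : c.psi w0 ∈ U := (hRc (hRR hw0R)).2
  obtain ⟨g, f, hg, hf, hgU, hfU, hfK, hgf⟩ := exists_aut hG hw0U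
  -- the map to be extended
  have hfd : DifferentiableOn ℂ (fun w => f (c.psi w)) R := by
    rw [← holOn_iff hR]
    have h1 : HolOn c.psi R := (holOn_iff hR).2 (c.hpsi.mono fun w hw => (hRc hw).1)
    exact HolOn.comp hf h1 (fun w hw => (hRc hw).2)
  obtain ⟨E, hE, hEM, hEf⟩ := hext (max M 0) (fun w => f (c.psi w)) hfd
    (fun w hw => (hM _ (hfU (hRc hw).2)).trans (le_max_left _ _))
  have hρr : ball (0 : Cn n) r ⊆ ball 0 ρ := ball_subset_ball (by linarith)
  have hw0ρ : w0 ∈ ball (0 : Cn n) ρ := hρr hw0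
  -- `E` maps the ball into the variety
  have hEV : ∀ w ∈ ball (0 : Cn n) ρ, E w ∈ zeroSet I := by
    intro w hw p hp
    have h1 : DifferentiableOn ℂ (fun w => MvPolynomial.eval (E w) p) (ball 0 ρ) :=
      (diff_eval p).comp_differentiableOn hE
    have h2 : DifferentiableOn ℂ (fun _ : Cn n => (0 : ℂ)) (ball 0 ρ) :=
      differentiableOn_const _
    refine ident_ball h1 h2 hw0ρ ?_ w hw
    filter_upwards [hR'.mem_nhds hw0R, isOpen_ball.mem_nhds hw0ρ] with x hx hx'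
    have h3 : E x = f (c.psi x) := hEf x ⟨hx, hx'⟩
    have h4 : f (c.psi x) ∈ U := hfU (hRc (hRR hx)).2
    rw [hUO] at h4
    rw [h3]
    exact h4.1 p hp
  -- `E` maps the small ball into `U`
  have hEU : ∀ w ∈ ball (0 : Cn n) r, E w ∈ U := by
    intro w hw
    rw [hUO]
    refine ⟨hEV w (hρr hw), hδO ?_⟩
    rw [mem_thickening_iff]
    refine ⟨f (c.psi w0), hfK, ?_⟩
    have h1 : E w0 = f (c.psi w0) := hEf w0 ⟨hw0R, hw0ρ⟩
    rw [← h1, dist_eq_norm]
    have h2 := lip hρ hE hEM (ball_subset_ball hr3 hw0) (ball_subset_ball hr3 hw)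
    refine h2.trans_lt (lt_of_le_of_lt ?_ hρ2')
    have h3 : ‖w - w0‖ ≤ 2 * ρ2 := by
      have h4 : ‖w‖ < r := by simpa using hw
      have h5 : ‖w0‖ < r := by simpa using hw0
      calc ‖w - w0‖ ≤ ‖w‖ + ‖w0‖ := norm_sub_le _ _
        _ ≤ 2 * ρ2 := by linarith
    have h6 : 0 ≤ max M 0 / (ρ - ρ / 2) := div_nonneg hM' (by linarith)
    gcongr
  -- the composition with the inverse automorphism is the parametrization
  have h1 : DifferentiableOn ℂ (fun w => g (E w)) (ball 0 r) := by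
    rw [← holOn_iff isOpen_ball]
    have h2 : HolOn E (ball 0 r) := (holOn_iff isOpen_ball).2 (hE.mono hρr)
    exact HolOn.comp hg h2 hEU
  have h2 : DifferentiableOn ℂ c.psi (ball 0 r) :=
    c.hpsi.mono fun w hw => hρ1W (ball_subset_ball hr1 hw)
  have h3 : g (E 0) = c.psi 0 := by
    refine ident_ball h1 h2 hw0 ?_ 0 (mem_ball_self hr0)
    filter_upwards [hR'.mem_nhds hw0R, isOpen_ball.mem_nhds hw0ρ] with x hx hx'
    have h3 : E x = f (c.psi x) := hEf x ⟨hx, hx'⟩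
    rw [h3]
    exact hgf _ (hRc (hRR hx)).2
  apply hbd
  rw [← h3]
  exact hgU (hEU 0 (mem_ball_self hr0))

end KP
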