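import Pool.Agent.Lib.KP.SpecG

set_option autoImplicit false

open Set Filter Topology Metric

namespace KP

namespace LipAux

/-- Local Lipschitz bounds from Cauchy estimates. -/
private theorem lip {N m : ℕ} {f : Cn N → Cn m} {z : Cn N} {ρ M : ℝ} (hρ : 0 < ρ)
    (hf : DifferentiableOn ℂ f (ball z (2 * ρ))) (hM : ∀ w ∈ ball z (2 * ρ), ‖f w‖ ≤ M) :
    ∀ w ∈ ball z ρ, ∀ w' ∈ ball z ρ, ‖f w - f w'‖ ≤ M / ρ * ‖w - w'‖ := by
  intro w hw w' hw'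
  have hsub : ball z ρ ⊆ ball z (2 * ρ) := ball_subset_ball (by linarith)
  refine Convex.norm_image_sub_le_of_norm_fderiv_le (𝕜 := ℂ) (s := ball z ρ) ?_ ?_
    (convex_ball z ρ) hw' hw
  · intro x hx
    exact (hf x (hsub hx)).differentiableAt (isOpen_ball.mem_nhds (hsub hx))
  · intro x hx
    have h1 := Pool.Agent.Lib.Osgood.norm_fderiv_le' (z := z) (R := 2 * ρ) (r := ρ) (M := M)
      (by linarith) hf hM (ball_subset_closedBall hx)
    have h2 : 2 * ρ - ρ = ρ := by ring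
    rwa [h2] at h1

end LipAux

open LipAux in
theorem tLip : S_Lip := by
  intro N n m V U U' hU hU' z hz hsm M
  obtain ⟨O, hO, rfl⟩ := hU
  obtain ⟨O', hO', rfl⟩ := hU'
  obtain ⟨hzV, c, hzc⟩ := hsm
  obtain ⟨hw0, hpsi0⟩ := c.right hzV hzc
  set w0 := c.pi z with hw0d
  have hpreEq : c.pre (V ∩ O ∩ O') = c.W ∩ c.psi ⁻¹' (O ∩ O') := by
    ext w
    constructor
    · rintro ⟨h1, h2⟩
      exact ⟨h1, h2.1.2, h2.2⟩
    · rintro ⟨h1, h2⟩
      exact ⟨h1, ⟨(c.psi_mem h1).1, h2.1⟩, h2.2⟩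
  have hpre : IsOpen (c.pre (V ∩ O ∩ O')) := by
    rw [hpreEq]
    exact c.hpsi.continuousOn.isOpen_inter_preimage c.hW (hO.inter hO')
  have hw0pre : w0 ∈ c.pre (V ∩ O ∩ O') := ⟨hw0, by rw [hpsi0]; exact hz⟩
  obtain ⟨ρ₀, hρ₀, hball⟩ := Metric.isOpen_iff.1 hpre w0 hw0pre
  set ρ : ℝ := ρ₀ / 2 with hρ
  have hρpos : 0 < ρ := by positivity
  have h2ρ : 2 * ρ = ρ₀ := by rw [hρ]; ring
  rw [← h2ρ] at hball
  -- the projection
  have hpc : ContinuousAt c.pi z :=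
    (c.hpi z hzc).continuousWithinAt.continuousAt (c.hO.mem_nhds hzc)
  obtain ⟨R, hR, hRO, M', hM'⟩ : ∃ R > 0, ball z (2 * R) ⊆ c.O ∧ ∃ M' : ℝ,
      ∀ w ∈ ball z (2 * R), ‖c.pi w‖ ≤ M' := by
    have h1 : ∀ᶠ w in 𝓝 z, ‖c.pi w‖ < ‖c.pi z‖ + 1 :=
      hpc.norm.eventually_lt continuousAt_const (by linarith)
    have h2 : ∀ᶠ w in 𝓝 z, w ∈ c.O := c.hO.mem_nhds hzc
    obtain ⟨R, hR, h⟩ := Metric.eventually_nhds_iff_ball.1 (h1.and h2)
    refine ⟨R / 2, by positivity, ?_, ‖c.pi z‖ + 1, ?_⟩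
    · rw [show 2 * (R / 2) = R by ring]
      exact fun w hw => (h w hw).2
    · rw [show 2 * (R / 2) = R by ring]
      exact fun w hw => (h w hw).1.le
  have hpilip := lip hR (c.hpi.mono hRO) hM'
  have hM'0 : 0 ≤ M' := (norm_nonneg _).trans (hM' z (mem_ball_self (by positivity)))
  obtain ⟨r₁, hr₁, hr₁'⟩ := Metric.eventually_nhds_iff_ball.1
    (hpc.preimage_mem_nhds (ball_mem_nhds (c.pi z) hρpos))
  refine ⟨min r₁ R, lt_min hr₁ hR, M / ρ * (M' / R), ?_⟩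
  intro f hf hfM y hy y' hy'
  have hM0 : 0 ≤ M := (norm_nonneg _).trans (hfM z hz)
  have hcpsi : HolOn c.psi (c.pre (V ∩ O ∩ O')) := by
    rw [holOn_iff hpre]
    exact c.hpsi.mono (fun w hw => hw.1)
  have hh : DifferentiableOn ℂ (fun w => f (c.psi w)) (c.pre (V ∩ O ∩ O')) := by
    rw [← holOn_iff hpre]
    exact hf.comp hcpsi (fun w hw => hw.2)
  have hhlip := lip hρpos (hh.mono hball) (M := M) (fun w hw => hfM _ (hball hw).2)
  have key : ∀ x ∈ ball z (min r₁ R) ∩ (V ∩ O), x ∈ ball z R ∧ c.pi x ∈ ball w0 ρ ∧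
      c.psi (c.pi x) = x := by
    rintro x ⟨hx1, hx2⟩
    have hxR : x ∈ ball z R := ball_subset_ball (min_le_right _ _) hx1
    have hx1' : x ∈ ball z r₁ := ball_subset_ball (min_le_left _ _) hx1
    have hxc : x ∈ c.O := hRO (ball_subset_ball (by linarith) hxR)
    exact ⟨hxR, hr₁' x hx1', (c.right hx2.1 hxc).2⟩
  obtain ⟨a1, a2, a3⟩ := key y hy
  obtain ⟨b1, b2, b3⟩ := key y' hy'
  have e1 := hhlip _ a2 _ b2
  simp only [a3, b3] at e1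
  have e2 := hpilip _ a1 _ b1
  calc ‖f y - f y'‖ ≤ M / ρ * ‖c.pi y - c.pi y'‖ := e1
    _ ≤ M / ρ * (M' / R * ‖y - y'‖) := by gcongr
    _ = M / ρ * (M' / R) * ‖y - y'‖ := by ring

end KP
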